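import Mathlib

/-!
# Parameters
-/

set_option autoImplicit false

namespace Pool.Agent.helper747_ug

open Real

theorem params (N β κ a α : ℝ) (hN : 1 ≤ N) (hβ : 0 < β) (hβ1 : β ≤ 1) (hκ : 0 < κ)
    (hκ1 : κ ≤ 1 / 64) (ha : a = 64 / β * log (4 / β) * log (1 / κ)) (hα : α = a / (a + log N)) :
    0 < a ∧ 0 < α ∧ α ≤ 1 ∧ (N + 1) ^ α ≤ exp a ∧
    ∃ t : ℕ, 18 ^ (1 / (α / (2 * (1 + α)))) *
        (4 * N ^ ((1 - α / (2 * (1 + α))) ^ (2 * (t + 1)))) *
        exp (-((8 * log (4 / β) + 4) * log (1 / κ))) ≤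
      4 * 18 ^ 4 * N ^ β * κ ^ (4 * (t + 1)) := by
  have hl2 := Real.log_two_gt_d9
  set l := log N with hl
  have hl0 : 0 ≤ l := log_nonneg hN
  set Λ := log (4 / β) with hΛ
  have hΛ1 : 1 ≤ Λ := by
    have h1 : log 4 ≤ Λ := log_le_log (by norm_num) (by rw [le_div_iff₀ hβ]; nlinarith)
    have h2 : log 4 = 2 * log 2 := by
      rw [show (4 : ℝ) = 2 ^ 2 by norm_num, Real.log_pow]; norm_num
    linarith
  set Kp := log (1 / κ) with hKp
  have hKp4 : 4 ≤ Kp := by
    have h1 : log 64 ≤ Kp := log_le_log (by norm_num) (by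
      rw [le_div_iff₀ hκ]; linarith)
    have h2 : log 64 = 6 * log 2 := by
      rw [show (64 : ℝ) = 2 ^ 6 by norm_num, Real.log_pow]; norm_num
    linarith
  have ha64 : 64 / β ≤ a := by
    rw [ha]
    have h1 : (0 : ℝ) < 64 / β := by positivity
    have h2 : 1 ≤ Λ * Kp := by nlinarith
    calc 64 / β = 64 / β * 1 := by ring
      _ ≤ 64 / β * (Λ * Kp) := mul_le_mul_of_nonneg_left h2 h1.le
      _ = _ := by ring
  have ha1 : 64 ≤ a := by
    have : 64 ≤ 64 / β := by rw [le_div_iff₀ hβ]; nlinarith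
    linarith
  have ha0 : 0 < a := by linarith
  have hα0 : 0 < α := by rw [hα]; positivity
  have hα1 : α ≤ 1 := by
    rw [hα, div_le_one (by positivity)]; linarith
  refine ⟨ha0, hα0, hα1, ?_, ?_⟩
  · rw [rpow_def_of_pos (by linarith)]
    refine exp_le_exp.2 ?_
    have h1 : log (N + 1) ≤ a + l := by
      have h2 : log (N + 1) ≤ log (2 * N) := log_le_log (by linarith) (by linarith)
      rw [log_mul (by norm_num) (by linarith)] at h2
      have h3 := Real.log_two_lt_d9
      linarith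
    calc log (N + 1) * α ≤ (a + l) * α := mul_le_mul_of_nonneg_right h1 hα0.le
      _ = a := by rw [hα]; field_simp
  · set γ := α / (2 * (1 + α)) with hγ
    have hγ0 : 0 < γ := by positivity
    have hγ1 : γ < 1 := by
      rw [hγ, div_lt_one (by positivity)]; linarith
    have hγi : 1 / γ = 4 + 2 * l / a := by
      rw [hγ, hα]; field_simp; ring
    obtain ⟨t, ht1, ht2⟩ : ∃ t : ℕ, Λ / (2 * γ) ≤ (t : ℝ) + 1 ∧ (t : ℝ) ≤ Λ / (2 * γ) := by
      refine ⟨⌊Λ / (2 * γ)⌋₊, (Nat.lt_floor_add_one _).le, Nat.floor_le (by positivity)⟩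
    refine ⟨t, ?_⟩
    have hq : (1 - γ) ^ (2 * (t + 1)) ≤ β / 4 := by
      have h1 : (1 - γ) ^ (2 * (t + 1)) ≤ exp (-γ) ^ (2 * (t + 1)) :=
        pow_le_pow_left₀ (by linarith) (by linarith [add_one_le_exp (-γ)]) _
      refine h1.trans ?_
      rw [← exp_nat_mul]
      have h2 : (((2 * (t + 1) : ℕ)) : ℝ) * -γ ≤ -Λ := by
        push_cast
        rw [div_le_iff₀ (by positivity)] at ht1
        linarith
      refine (exp_le_exp.2 h2).trans ?_
      rw [hΛ, exp_neg, exp_log (by positivity), inv_div]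
    have hNq : N ^ ((1 - γ) ^ (2 * (t + 1))) ≤ exp (l * (β / 4)) := by
      rw [rpow_def_of_pos (by linarith)]
      exact exp_le_exp.2 (mul_le_mul_of_nonneg_left hq hl0)
    have h18 : (18 : ℝ) ^ (1 / γ) = exp (log 18 * (4 + 2 * l / a)) := by
      rw [hγi, rpow_def_of_pos (by norm_num)]
    have h184 : (18 : ℝ) ^ 4 = exp (4 * log 18) := by
      rw [show (4 : ℝ) * log 18 = ((4 : ℕ) : ℝ) * log 18 by norm_num, exp_nat_mul,
        exp_log (by norm_num)]
    have hNβ : N ^ β = exp (l * β) := by rw [rpow_def_of_pos (by linarith)]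
    have hκe : κ ^ (4 * (t + 1)) = exp (-(4 * (t + 1) * Kp)) := by
      have h1 : κ = exp (-Kp) := by
        rw [hKp, one_div, log_inv, neg_neg, exp_log hκ]
      nth_rewrite 1 [h1]
      rw [← exp_nat_mul]
      congr 1
      push_cast; ring
    have hlog18 : log 18 ≤ 3 := by
      have h1 : (18 : ℝ) ≤ exp 3 := by
        have h2 := Real.exp_one_gt_d9
        have h3 : exp 3 = exp 1 ^ 3 := by rw [← exp_nat_mul]; norm_num
        rw [h3]
        have h4 : (2.7 : ℝ) ^ 3 ≤ exp 1 ^ 3 := pow_le_pow_left₀ (by norm_num) (by linarith) 3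
        have h5 : (2.7 : ℝ) ^ 3 = 19.683 := by norm_num
        linarith
      calc log 18 ≤ log (exp 3) := log_le_log (by norm_num) h1
        _ = 3 := log_exp 3
    have hlog180 : 0 ≤ log 18 := log_nonneg (by norm_num)
    have e1 : 4 * (t + 1) * Kp ≤ (8 * Λ + 4) * Kp + β / 16 * l := by
      have h1 : 4 * ((t : ℝ) + 1) ≤ 2 * Λ * (1 / γ) + 4 := by
        have h2 : 4 * (t : ℝ) ≤ 4 * (Λ / (2 * γ)) := by linarith
        have h3 : 4 * (Λ / (2 * γ)) = 2 * Λ * (1 / γ) := by field_simp; ring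
        linarith
      rw [hγi] at h1
      have h4 : 4 * (t + 1) * Kp ≤ (2 * Λ * (4 + 2 * l / a) + 4) * Kp :=
        mul_le_mul_of_nonneg_right h1 (by linarith)
      refine h4.trans (le_of_eq ?_)
      have h5 : 4 * Λ * Kp / a = β / 16 := by
        rw [ha]
        have hΛne : Λ ≠ 0 := by linarith
        have hKne : Kp ≠ 0 := by linarith
        field_simp
        norm_num
      calc (2 * Λ * (4 + 2 * l / a) + 4) * Kp = (8 * Λ + 4) * Kp + 4 * Λ * Kp / a * l := by ring
        _ = _ := by rw [h5]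
    have e2 : log 18 * (2 * l / a) ≤ β / 4 * l := by
      have h1 : 2 / a ≤ β / 32 := by
        rw [div_le_div_iff₀ ha0 (by norm_num)]
        rw [div_le_iff₀ hβ] at ha64
        linarith
      calc log 18 * (2 * l / a) = (log 18 * (2 / a)) * l := by ring
        _ ≤ (3 * (β / 32)) * l := by
            refine mul_le_mul_of_nonneg_right ?_ hl0
            exact mul_le_mul hlog18 h1 (by positivity) (by norm_num)
        _ ≤ β / 4 * l := by
            refine mul_le_mul_of_nonneg_right ?_ hl0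
            linarith
    calc 18 ^ (1 / γ) * (4 * N ^ ((1 - γ) ^ (2 * (t + 1)))) * exp (-((8 * Λ + 4) * Kp))
        ≤ exp (log 18 * (4 + 2 * l / a)) * (4 * exp (l * (β / 4))) *
            exp (-((8 * Λ + 4) * Kp)) := by
          rw [h18]
          refine mul_le_mul_of_nonneg_right ?_ (exp_pos _).le
          refine mul_le_mul_of_nonneg_left ?_ (exp_pos _).le
          linarith
      _ = 4 * exp (log 18 * (4 + 2 * l / a) + l * (β / 4) + (-((8 * Λ + 4) * Kp))) := by
          rw [exp_add, exp_add]; ring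
      _ ≤ 4 * exp (4 * log 18 + l * β + -(4 * (t + 1) * Kp)) := by
          refine mul_le_mul_of_nonneg_left (exp_le_exp.2 ?_) (by norm_num)
          have hbl : 0 ≤ β * l := by positivity
          nlinarith
      _ = 4 * 18 ^ 4 * N ^ β * κ ^ (4 * (t + 1)) := by
          rw [hκe, hNβ, h184, exp_add, exp_add]; ring

/-- the level and the value in terms of `M = 2 d / c` -/
theorem final_params (c β d M : ℝ) (hc : 0 < c) (hc1 : c ≤ 1) (hβ : 0 < β) (hβ1 : β ≤ 1)
    (hd : 1 ≤ d) (hM : M = 2 * d / c) :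
    4 * (4 * 18 ^ 4) / c * exp ((8 * log (4 / β) + 4) * log (1 / (c ^ 2 / (64 * d)))) <
      M ^ (2 ^ 10 * log (2 / β)) ∧
    M ^ (-(2 ^ 10 / β * log (2 / β))) ≤
      c ^ 2 / 16 * exp (-(64 / β * log (4 / β) * log (1 / (c ^ 2 / (64 * d))))) := by
  have hl2 := Real.log_two_gt_d9
  have hd0 : 0 < d := by linarith
  have hM2 : 2 ≤ M := by
    rw [hM, le_div_iff₀ hc]; nlinarith
  have hM0 : 0 < M := by linarith
  set m := log M with hm
  have hm2 : log 2 ≤ m := log_le_log (by norm_num) hM2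
  have hm0 : 0 < m := by linarith
  set y := log (2 / β) with hy
  have hy2 : log 2 ≤ y := log_le_log (by norm_num) (by rw [le_div_iff₀ hβ]; nlinarith)
  have hL : log (4 / β) ≤ 2 * y := by
    have : (4 : ℝ) / β = 2 * (2 / β) := by ring
    rw [this, log_mul (by norm_num) (by positivity)]
    linarith
  have hL0 : 0 ≤ log (4 / β) := log_nonneg (by rw [le_div_iff₀ hβ]; nlinarith)
  -- 64 d / c^2 ≤ M^6
  have hdc : 1 ≤ d / c := by rw [le_div_iff₀ hc]; linarith
  have hK : log (1 / (c ^ 2 / (64 * d))) ≤ 6 * m := by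
    have h1 : 1 / (c ^ 2 / (64 * d)) ≤ M ^ 6 := by
      have e1 : 1 / (c ^ 2 / (64 * d)) = 64 * (d / c ^ 2) := by field_simp
      have e2 : M ^ 6 = 64 * (d / c) ^ 6 := by rw [hM]; field_simp; norm_num
      rw [e1, e2]
      refine mul_le_mul_of_nonneg_left ?_ (by norm_num)
      have e3 : d / c ^ 2 ≤ (d / c) ^ 2 := by
        rw [div_pow]
        refine div_le_div_of_nonneg_right ?_ (by positivity)
        nlinarith
      exact e3.trans (pow_le_pow_right₀ hdc (by norm_num))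
    calc log (1 / (c ^ 2 / (64 * d))) ≤ log (M ^ 6) := log_le_log (by positivity) h1
      _ = 6 * m := by rw [log_pow]; norm_num [hm]
  have hK0 : 0 ≤ log (1 / (c ^ 2 / (64 * d))) := by
    refine log_nonneg ?_
    rw [le_div_iff₀ (by positivity), one_mul, div_le_one (by positivity)]
    nlinarith
  set Kp := log (1 / (c ^ 2 / (64 * d))) with hKp
  set Λ := log (4 / β) with hΛ
  constructor
  · have h1 : 4 * (4 * (18 : ℝ) ^ 4) / c < M ^ 21 := by
      have e2 : M ^ 21 = 2 ^ 21 * (d / c) ^ 21 := by rw [hM, mul_div_assoc, mul_pow]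
      have e3 : 1 / c ≤ (d / c) ^ 21 := by
        calc 1 / c ≤ d / c := div_le_div_of_nonneg_right hd hc.le
          _ ≤ (d / c) ^ 21 := le_self_pow₀ hdc (by norm_num)
      rw [e2]
      have e4 : (0 : ℝ) < 1 / c := by positivity
      calc 4 * (4 * (18 : ℝ) ^ 4) / c = (4 * (4 * 18 ^ 4)) * (1 / c) := by ring
        _ < 2 ^ 21 * (1 / c) := mul_lt_mul_of_pos_right (by norm_num) e4
        _ ≤ 2 ^ 21 * (d / c) ^ 21 := mul_le_mul_of_nonneg_left e3 (by norm_num)
    have h2 : M ^ 21 = exp (21 * m) := by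
      rw [show (21 : ℝ) * m = ((21 : ℕ) : ℝ) * m by norm_num, exp_nat_mul, hm, exp_log hM0]
    rw [h2] at h1
    have h3 := mul_lt_mul_of_pos_right h1 (exp_pos ((8 * Λ + 4) * Kp))
    refine h3.trans_le ?_
    rw [← exp_add, rpow_def_of_pos hM0]
    refine exp_le_exp.2 ?_
    have h4 : (8 * Λ + 4) * Kp ≤ (16 * y + 4) * (6 * m) :=
      mul_le_mul (by linarith) hK hK0 (by linarith)
    have h5 : 21 * m + (16 * y + 4) * (6 * m) = m * (45 + 96 * y) := by ring
    have h6 : m * (45 + 96 * y) ≤ m * (2 ^ 10 * y) :=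
      mul_le_mul_of_nonneg_left (by linarith) hm0.le
    linarith
  · have h1 : M ^ (-4 : ℝ) ≤ c ^ 2 / 16 := by
      rw [rpow_neg hM0.le, show (4 : ℝ) = ((4 : ℕ) : ℝ) by norm_num, rpow_natCast]
      have e2 : M ^ 4 = 16 * (d / c) ^ 4 := by rw [hM, mul_div_assoc, mul_pow]; norm_num
      have e3 : 16 / c ^ 2 ≤ M ^ 4 := by
        rw [e2]
        have e4 : 1 / c ^ 2 ≤ (d / c) ^ 4 := by
          calc 1 / c ^ 2 ≤ (d / c) ^ 2 := by
                rw [div_pow]
                exact div_le_div_of_nonneg_right (by nlinarith) (by positivity)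
            _ ≤ (d / c) ^ 4 := pow_le_pow_right₀ hdc (by norm_num)
        calc 16 / c ^ 2 = 16 * (1 / c ^ 2) := by ring
          _ ≤ 16 * (d / c) ^ 4 := mul_le_mul_of_nonneg_left e4 (by norm_num)
      calc (M ^ 4)⁻¹ ≤ (16 / c ^ 2)⁻¹ := inv_anti₀ (by positivity) e3
        _ = c ^ 2 / 16 := by rw [inv_div]
    have h2 : M ^ (-(2 ^ 10 / β * y)) = M ^ (-4 : ℝ) * M ^ (-(2 ^ 10 / β * y) + 4) := by
      rw [← rpow_add hM0]; congr 1; ring
    rw [h2]
    refine mul_le_mul h1 ?_ (rpow_nonneg hM0.le _) (by positivity)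
    rw [rpow_def_of_pos hM0]
    refine exp_le_exp.2 ?_
    have hi : 1 ≤ 1 / β := by rw [le_div_iff₀ hβ]; linarith
    have h4 : 64 / β * Λ * Kp ≤ 64 / β * (2 * y) * (6 * m) := by
      refine mul_le_mul (mul_le_mul_of_nonneg_left hL (by positivity)) hK hK0 ?_
      have : 0 ≤ y := by linarith
      positivity
    have h5 : m * (-(2 ^ 10 / β * y) + 4) ≤ -(64 / β * (2 * y) * (6 * m)) := by
      have e1 : -(64 / β * (2 * y) * (6 * m)) = m * (-(768 * (1 / β) * y)) := by ring
      rw [e1]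
      refine mul_le_mul_of_nonneg_left ?_ hm0.le
      have e2 : (2 : ℝ) ^ 10 / β * y = 1024 * (1 / β) * y := by ring
      rw [e2]
      have e3 : 1 * y ≤ (1 / β) * y := mul_le_mul_of_nonneg_right hi (by linarith)
      nlinarith
    linarith

end Pool.Agent.helper747_ug
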