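import Pool.Agent.helper747_ug.Round
import Pool.Agent.helper747_ug.Param

/-!
# Assembly
-/

set_option autoImplicit false

namespace Pool.Agent.helper747_ug

open Finset Pool.Agent.H647R3.UG Pool.Agent.TH522.UG

/-- all edges heavy -/
theorem heavy {V A E : Type} [Fintype V] [DecidableEq V] [Fintype A] [DecidableEq A] [Fintype E]
    (s t : E → V) (R : E → Finset (A × A)) (c β : ℝ) (d k : ℕ) (L : ((V → A) → ℝ) →ₗ[ℝ] ℝ)
    (hc : 0 < c) (hc1 : c ≤ 1) (hβ : 0 < β) (hβ1 : β ≤ 1) (hd : 1 ≤ d)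
    (hR1 : ∀ e a, (univ.filter fun b => (a, b) ∈ R e).card ≤ d)
    (hR2 : ∀ e b, (univ.filter fun a => (a, b) ∈ R e).card ≤ d)
    (hk : (2 * d / c) ^ (2 ^ 10 * Real.log (2 / β)) * (Fintype.card V : ℝ) ^ β ≤ k)
    (hL : Mixed k L) (hheavy : ∀ e, c / 2 ≤ L (rel (R e) (s e) (t e))) :
    ∃ x : V → A, 2 / c * (2 * d / c) ^ (-(2 ^ 10 / β * Real.log (2 / β)))
        * (Fintype.card E : ℝ)
      ≤ ((univ.filter fun e => (x (s e), x (t e)) ∈ R e).card : ℝ) := by
  -- a labeling exists
  have hxne : Nonempty (V → A) := by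
    by_contra h
    rw [not_nonempty_iff] at h
    have h1 : (fun _ : V → A => (1 : ℝ)) = 0 := by
      funext x; exact h.elim x
    have h2 := hL.one
    rw [h1, map_zero] at h2
    norm_num at h2
  rcases isEmpty_or_nonempty V with hV | hV
  · have hE : IsEmpty E := ⟨fun e => hV.elim (s e)⟩
    obtain ⟨x⟩ := hxne
    refine ⟨x, ?_⟩
    simp
  have hd0 : (1 : ℝ) ≤ d := by exact_mod_cast hd
  have hN : (1 : ℝ) ≤ (Fintype.card V : ℝ) := by exact_mod_cast Fintype.card_pos
  set N : ℝ := (Fintype.card V : ℝ) with hNdef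
  set κ := c ^ 2 / (64 * (d : ℝ)) with hκdef
  have hκ : 0 < κ := by positivity
  have hκ1 : κ ≤ 1 / 64 := by
    rw [hκdef, div_le_div_iff₀ (by positivity) (by norm_num)]
    nlinarith
  obtain ⟨ha0, hα0, hα1, hret, τ, hτ⟩ := params N β κ _ _ hN hβ hβ1 hκ hκ1 rfl rfl
  obtain ⟨hf1, hf2⟩ := final_params c β d _ hc hc1 hβ hβ1 hd0 rfl
  rw [← hκdef] at hf1 hf2
  set a := 64 / β * Real.log (4 / β) * Real.log (1 / κ) with ha
  set α := a / (a + Real.log N) with hα
  obtain ⟨hw0, hws, -, -, -, -, hw7, -, -⟩ := T_WT V E s t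
  obtain ⟨cl, hcl1, hcl2⟩ := partition (wt s t) hw0 hws α hα0
  set B : ℝ := 18 ^ (1 / (α / (2 * (1 + α)))) *
        (4 * N ^ ((1 - α / (2 * (1 + α))) ^ (2 * (τ + 1)))) with hB
  have hB0 : 0 < B := by
    have : 0 < N ^ ((1 - α / (2 * (1 + α))) ^ (2 * (τ + 1))) :=
      Real.rpow_pos_of_pos (by linarith) _
    positivity
  set Δ := κ ^ (4 * (τ + 1)) / B with hΔ
  have hΔ0 : 0 < Δ := by positivity
  have hNβ0 : 0 < N ^ β := Real.rpow_pos_of_pos (by linarith) _
  -- the level suffices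
  have hkΔ : 4 < k * Δ * c := by
    set G := Real.exp ((8 * Real.log (4 / β) + 4) * Real.log (1 / κ)) with hG
    have hG0 : 0 < G := Real.exp_pos _
    have h1 : Real.exp (-((8 * Real.log (4 / β) + 4) * Real.log (1 / κ))) = G⁻¹ :=
      Real.exp_neg _
    rw [h1] at hτ
    have h2 : G⁻¹ ≤ 4 * 18 ^ 4 * N ^ β * Δ := by
      rw [hΔ, mul_div_assoc', le_div_iff₀ hB0]
      linarith
    have h3 : 1 ≤ 4 * 18 ^ 4 * N ^ β * Δ * G := by
      calc (1 : ℝ) = G⁻¹ * G := (inv_mul_cancel₀ hG0.ne').symm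
        _ ≤ _ := mul_le_mul_of_nonneg_right h2 hG0.le
    have h4 : 4 * (4 * 18 ^ 4) / c * G * N ^ β < k := by
      refine lt_of_lt_of_le ?_ hk
      exact mul_lt_mul_of_pos_right hf1 hNβ0
    have h5 : 4 * (4 * 18 ^ 4) / c * G * N ^ β * (Δ * c) < k * (Δ * c) :=
      mul_lt_mul_of_pos_right h4 (by positivity)
    have h6 : 4 * (4 * 18 ^ 4) / c * G * N ^ β * (Δ * c) = 4 * (4 * 18 ^ 4 * N ^ β * Δ * G) := by
      field_simp
    rw [h6] at h5
    linarith
  -- correlation in each part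
  have hcor : ∀ i, ∀ (k : ℕ) (L : ((V → A) → ℝ) →ₗ[ℝ] ℝ), Mixed k L →
      0 < ((ins s t (univ.filter fun v => cl v = i)).card : ℝ) →
      c / 8 * ((ins s t (univ.filter fun v => cl v = i)).card : ℝ) ≤
        Vl s t R (univ.filter fun v => cl v = i) L - Rd s t R (univ.filter fun v => cl v = i) L →
      Δ * wi (wt s t) (univ.filter fun v => cl v = i) ^ 2 ≤
        ∑ u ∈ (univ.filter fun v => cl v = i), ∑ v ∈ (univ.filter fun v => cl v = i),
          dS (wt s t) (univ.filter fun v => cl v = i) u *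
            dS (wt s t) (univ.filter fun v => cl v = i) v * kr L u v ^ 2 := by
    intro i k L hL hpos hgap
    set S := univ.filter fun v => cl v = i with hS
    have hwS : 0 < wi (wt s t) S := by rw [wi_ins]; linarith
    have hloc := local_corr hL s t R S d hd hR1 hR2 c hc hgap
    rw [← hκdef] at hloc
    obtain ⟨J, instJ, U, hU⟩ := Mx.gram hL
    have hkr1 : ∀ u, ∑ j, U j u * U j u ≤ 1 := by
      intro u
      rw [← hU u u]
      obtain ⟨h1, h2, h3, h4⟩ := T_RD A (pr2 L u u) (pr L u) (pr L u) (Mx.law hL u u)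
      change kr L u u ≤ _ at h2
      linarith
    have key := gcorrS (wt s t) hw0 hws S hwS α κ hα0 hα1 (hcl1 i hwS) U hkr1 hκ
      (by simpa only [hU] using hloc) τ
    simp only [← hU] at key
    rw [← hNdef, ← hB] at key
    rw [hΔ, div_mul_eq_mul_div, div_le_iff₀ hB0]
    linarith
  -- the labelings of the parts
  have hpart : ∀ i, ∃ x : V → A, c / 8 * ((ins s t (univ.filter fun v => cl v = i)).card : ℝ) ≤
      (((ins s t (univ.filter fun v => cl v = i)).filter
        fun e => (x (s e), x (t e)) ∈ R e).card : ℝ) := by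
    intro i
    have hval : c / 2 * ((ins s t (univ.filter fun v => cl v = i)).card : ℝ) ≤
        Vl s t R (univ.filter fun v => cl v = i) L := by
      unfold Vl
      have h1 : ∑ e ∈ ins s t (univ.filter fun v => cl v = i), c / 2 ≤
          ∑ e ∈ ins s t (univ.filter fun v => cl v = i), L (rel (R e) (s e) (t e)) :=
        sum_le_sum fun e _ => hheavy e
      rw [sum_const, nsmul_eq_mul] at h1
      linarith
    obtain ⟨j, L', hL', h2⟩ := part_round s t R (univ.filter fun v => cl v = i) c Δ hc hΔ0 k hkΔ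
      (hcor i) L hL hval
    obtain ⟨x, hx⟩ := round_part hL' s t R (univ.filter fun v => cl v = i)
    exact ⟨x, h2.trans hx⟩
  choose X hX using hpart
  let x : V → A := fun v => X (cl v) v
  refine ⟨x, ?_⟩
  -- counting
  have hcount : ∑ i, (((ins s t (univ.filter fun v => cl v = i)).filter
        fun e => (X i (s e), X i (t e)) ∈ R e).card : ℝ) ≤
      ((univ.filter fun e => (x (s e), x (t e)) ∈ R e).card : ℝ) := by
    have h1 : ∀ i, (ins s t (univ.filter fun v => cl v = i)).filter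
        (fun e => (X i (s e), X i (t e)) ∈ R e) =
        (univ.filter fun e => (x (s e), x (t e)) ∈ R e).filter
          (fun e => cl (s e) = i ∧ cl (t e) = i) := by
      intro i
      ext e
      simp only [ins, mem_filter, mem_univ, true_and, x]
      constructor
      · rintro ⟨⟨h1, h2⟩, h3⟩
        rw [h1, h2]
        exact ⟨h3, rfl, rfl⟩
      · rintro ⟨h3, h1, h2⟩
        rw [h1, h2] at h3
        exact ⟨⟨h1, h2⟩, h3⟩
    simp only [h1]
    have h2 : ∑ i, (((univ.filter fun e => (x (s e), x (t e)) ∈ R e).filter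
          (fun e => cl (s e) = i ∧ cl (t e) = i)).card : ℝ) ≤
        ∑ i, (((univ.filter fun e => (x (s e), x (t e)) ∈ R e).filter
          (fun e => cl (s e) = i)).card : ℝ) := by
      refine sum_le_sum fun i _ => ?_
      have h3 : (univ.filter fun e => (x (s e), x (t e)) ∈ R e).filter
          (fun e => cl (s e) = i ∧ cl (t e) = i) ⊆
          (univ.filter fun e => (x (s e), x (t e)) ∈ R e).filter (fun e => cl (s e) = i) := by
        intro e he
        rw [mem_filter] at he ⊢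
        exact ⟨he.1, he.2.1⟩
      exact_mod_cast card_le_card h3
    refine h2.trans (le_of_eq ?_)
    rw [← Nat.cast_sum]
    congr 1
    exact (card_eq_sum_card_fiberwise (f := fun e => cl (s e)) (t := univ)
      (fun _ _ => mem_coe.2 (mem_univ _))).symm
  refine le_trans ?_ hcount
  have hsumX : ∑ i, c / 8 * ((ins s t (univ.filter fun v => cl v = i)).card : ℝ) ≤
      ∑ i, (((ins s t (univ.filter fun v => cl v = i)).filter
        fun e => (X i (s e), X i (t e)) ∈ R e).card : ℝ) := sum_le_sum fun i _ => hX i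
  refine le_trans ?_ hsumX
  have hwi : ∀ i, ((ins s t (univ.filter fun v => cl v = i)).card : ℝ) =
      wi (wt s t) (univ.filter fun v => cl v = i) / 2 := by
    intro i; rw [wi_ins]; ring
  simp only [hwi]
  have hE : wi (wt s t) univ = 2 * (Fintype.card E : ℝ) := by
    rw [wi_ins]
    congr 2
    simp [ins, Finset.card_univ]
  rw [hE] at hcl2
  have hsum0 : 0 ≤ ∑ i, wi (wt s t) (univ.filter fun v => cl v = i) :=
    sum_nonneg fun i _ => wi_nonneg hw0 _
  have h10 : 2 * (Fintype.card E : ℝ) ≤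
      Real.exp a * ∑ i, wi (wt s t) (univ.filter fun v => cl v = i) :=
    hcl2.trans (mul_le_mul_of_nonneg_right hret hsum0)
  have h11 : Real.exp (-a) * (2 * (Fintype.card E : ℝ)) ≤
      ∑ i, wi (wt s t) (univ.filter fun v => cl v = i) := by
    have h12 := mul_le_mul_of_nonneg_left h10 (Real.exp_pos (-a)).le
    rw [← mul_assoc (Real.exp (-a)) (Real.exp a), ← Real.exp_add, neg_add_cancel, Real.exp_zero,
      one_mul] at h12
    exact h12
  have h13 : ∑ i, c / 8 * (wi (wt s t) (univ.filter fun v => cl v = i) / 2) =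
      c / 16 * ∑ i, wi (wt s t) (univ.filter fun v => cl v = i) := by
    rw [mul_sum]
    exact sum_congr rfl fun i _ => by ring
  rw [h13]
  have hE0 : (0 : ℝ) ≤ (Fintype.card E : ℝ) := Nat.cast_nonneg _
  have h14 : c / 16 * (Real.exp (-a) * (2 * (Fintype.card E : ℝ))) ≤
      c / 16 * ∑ i, wi (wt s t) (univ.filter fun v => cl v = i) :=
    mul_le_mul_of_nonneg_left h11 (by positivity)
  refine le_trans ?_ h14
  have h15 := mul_le_mul_of_nonneg_left hf2 (by positivity : (0 : ℝ) ≤ 2 / c)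
  calc 2 / c * (2 * d / c) ^ (-(2 ^ 10 / β * Real.log (2 / β))) * (Fintype.card E : ℝ)
      ≤ 2 / c * (c ^ 2 / 16 * Real.exp (-a)) * (Fintype.card E : ℝ) :=
        mul_le_mul_of_nonneg_right h15 hE0
    _ = c / 16 * (Real.exp (-a) * (2 * (Fintype.card E : ℝ))) := by field_simp

/-- the theorem -/
theorem main {V A E : Type} [Fintype V] [DecidableEq V] [Fintype A] [DecidableEq A] [Fintype E]
    (s t : E → V) (R : E → Finset (A × A)) (c β : ℝ) (d k : ℕ) (L : ((V → A) → ℝ) →ₗ[ℝ] ℝ)
    (hc : 0 < c) (hc1 : c ≤ 1) (hβ : 0 < β) (hβ1 : β ≤ 1) (hd : 1 ≤ d)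
    (hR1 : ∀ e a, (univ.filter fun b => (a, b) ∈ R e).card ≤ d)
    (hR2 : ∀ e b, (univ.filter fun a => (a, b) ∈ R e).card ≤ d)
    (hk : (2 * d / c) ^ (2 ^ 10 * Real.log (2 / β)) * (Fintype.card V : ℝ) ^ β ≤ k)
    (hL : Mixed k L) (hval : c * (Fintype.card E : ℝ) ≤ ∑ e, L (rel (R e) (s e) (t e))) :
    ∃ x : V → A, (2 * d / c) ^ (-(2 ^ 10 / β * Real.log (2 / β))) * (Fintype.card E : ℝ)
      ≤ ((univ.filter fun e => (x (s e), x (t e)) ∈ R e).card : ℝ) := by
  classical
  let H := {e : E // c / 2 ≤ L (rel (R e) (s e) (t e))}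
  obtain ⟨x, hx⟩ := heavy (fun e : H => s e.1) (fun e : H => t e.1) (fun e : H => R e.1) c β d k L hc
    hc1 hβ hβ1 hd (fun e => hR1 e.1) (fun e => hR2 e.1) hk hL (fun e => e.2)
  refine ⟨x, ?_⟩
  have h1 : ((univ.filter fun e : H => (x (s e.1), x (t e.1)) ∈ R e.1).card : ℝ) ≤
      ((univ.filter fun e => (x (s e), x (t e)) ∈ R e).card : ℝ) := by
    have : (univ.filter fun e : H => (x (s e.1), x (t e.1)) ∈ R e.1).card =
        ((univ.filter fun e : H => (x (s e.1), x (t e.1)) ∈ R e.1).map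
          (Function.Embedding.subtype _)).card := (card_map _).symm
    rw [this]
    exact_mod_cast card_le_card fun e he => by
      rw [mem_map] at he
      obtain ⟨y, hy, rfl⟩ := he
      simp only [mem_filter, mem_univ, true_and] at hy ⊢
      exact hy
  have h2 : c / 2 * (Fintype.card E : ℝ) ≤ (Fintype.card H : ℝ) := by
    have h3 : ∑ e, L (rel (R e) (s e) (t e)) ≤
        ∑ e, ((if c / 2 ≤ L (rel (R e) (s e) (t e)) then 1 else 0) + c / 2) := by
      refine sum_le_sum fun e _ => ?_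
      split_ifs with h
      · linarith [rel_val_le hL (R e) (s e) (t e)]
      · linarith
    rw [sum_add_distrib, sum_boole, sum_const, nsmul_eq_mul, card_univ] at h3
    have h4 : ((univ.filter fun e => c / 2 ≤ L (rel (R e) (s e) (t e))).card : ℝ) =
        (Fintype.card H : ℝ) := by
      rw [Fintype.card_subtype]
    rw [h4] at h3
    linarith
  have hM : 0 ≤ (2 * (d : ℝ) / c) ^ (-(2 ^ 10 / β * Real.log (2 / β))) :=
    Real.rpow_nonneg (by positivity) _
  calc (2 * d / c) ^ (-(2 ^ 10 / β * Real.log (2 / β))) * (Fintype.card E : ℝ)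
      = 2 / c * (2 * d / c) ^ (-(2 ^ 10 / β * Real.log (2 / β))) *
        (c / 2 * (Fintype.card E : ℝ)) := by field_simp
    _ ≤ 2 / c * (2 * d / c) ^ (-(2 ^ 10 / β * Real.log (2 / β))) * (Fintype.card H : ℝ) :=
        mul_le_mul_of_nonneg_left h2 (by positivity)
    _ ≤ _ := hx.trans h1

end Pool.Agent.helper747_ug
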