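import Pool.Agent.helper747_ug.PartGC
import Pool.Agent.TH522.UG.Mixed

/-!
# Relations, correlations and the mixed hierarchy
-/

set_option autoImplicit false

namespace Pool.Agent.helper747_ug

open Finset Pool.Agent.H647R3.UG Pool.Agent.TH522.UG

variable {V A : Type} [Fintype V] [DecidableEq V] [Fintype A] [DecidableEq A]

/-- indicator of a relation between the labels of `u` and `v` -/
noncomputable def rel (R : Finset (A × A)) (u v : V) : (V → A) → ℝ :=
  fun x => if (x u, x v) ∈ R then 1 else 0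

theorem rel_nonneg (R : Finset (A × A)) (u v : V) (x : V → A) : 0 ≤ rel R u v x := by
  unfold rel; split_ifs <;> norm_num

theorem rel_le_one (R : Finset (A × A)) (u v : V) (x : V → A) : rel R u v x ≤ 1 := by
  unfold rel; split_ifs <;> norm_num

theorem dep_rel (R : Finset (A × A)) (u v : V) (S : Finset V) (hu : u ∈ S) (hv : v ∈ S) :
    Dep S (rel R u v) := by
  intro x y h
  unfold rel
  rw [h u hu, h v hv]

theorem rel_expand (R : Finset (A × A)) (u v : V) (x : V → A) :
    rel R u v x = ∑ p ∈ R, ind u p.1 x * ind v p.2 x := by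
  unfold rel
  by_cases h : (x u, x v) ∈ R
  · rw [if_pos h, Finset.sum_eq_single_of_mem (x u, x v) h]
    · unfold ind; simp
    · intro p _ hp
      unfold ind
      by_cases h1 : x u = p.1
      · have h2 : ¬ x v = p.2 := fun h2 => hp (Prod.ext h1.symm h2.symm)
        simp [h2]
      · simp [h1]
  · rw [if_neg h]
    symm
    refine Finset.sum_eq_zero fun p hp => ?_
    unfold ind
    by_cases h1 : x u = p.1
    · have h2 : ¬ x v = p.2 := fun h2 => h (by rw [h1, h2]; exact hp)
      simp [h2]
    · simp [h1]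

theorem rel_eq (L : ((V → A) → ℝ) →ₗ[ℝ] ℝ) (R : Finset (A × A)) (u v : V) :
    L (rel R u v) = ∑ p ∈ R, pr2 L u v p.1 p.2 := by
  unfold pr2
  rw [← map_sum]
  congr 1
  funext x
  rw [Finset.sum_apply, rel_expand]

theorem rel_val_nonneg {k : ℕ} {L : ((V → A) → ℝ) →ₗ[ℝ] ℝ} (hL : Mixed k L) (R : Finset (A × A))
    (u v : V) : 0 ≤ L (rel R u v) :=
  hL.junta {u, v} ((card_le_two).trans (by omega)) _ (dep_rel R u v _ (by simp) (by simp))
    (rel_nonneg R u v)

theorem rel_val_le {k : ℕ} {L : ((V → A) → ℝ) →ₗ[ℝ] ℝ} (hL : Mixed k L) (R : Finset (A × A))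
    (u v : V) : L (rel R u v) ≤ 1 := by
  have h := hL.junta {u, v} ((card_le_two).trans (by omega)) (fun x => 1 - rel R u v x)
    (fun x y hxy => by
      have := dep_rel R u v {u, v} (by simp) (by simp) x y hxy
      show 1 - rel R u v x = 1 - rel R u v y
      rw [this]) (fun x => by linarith [rel_le_one R u v x])
  have e : (fun x : V → A => 1 - rel R u v x) = (fun _ => (1 : ℝ)) - rel R u v := rfl
  rw [e, map_sub, hL.one] at h
  linarith

/-- conditional expectations of a relation -/
theorem avg_rel {k : ℕ} {L : ((V → A) → ℝ) →ₗ[ℝ] ℝ} (hL : Mixed (k + 1) L) (R : Finset (A × A))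
    (u v w : V) : ∑ a, pr L u a * cnd L u a (rel R v w) = L (rel R v w) := by
  have h1 : ∀ a, pr L u a * cnd L u a (rel R v w) = L (fun x => ind u a x * rel R v w x) := by
    intro a
    show pr L u a * (L (fun x => ind u a x * rel R v w x) / pr L u a) = _
    by_cases ha : pr L u a = 0
    · rw [ha, zero_mul]
      have hS : ({u, v, w} : Finset V).card ≤ k + 1 + 2 := card_le_three.trans (by omega)
      have h2 : 0 ≤ L (fun x => ind u a x * rel R v w x) :=
        hL.junta {u, v, w} hS _ (Mx.dep_mul (Mx.dep_ind u a _ (by simp))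
          (dep_rel R v w _ (by simp) (by simp))) fun x =>
          mul_nonneg (Mx.ind_nonneg u a x) (rel_nonneg R v w x)
      have h3 : 0 ≤ L (fun x => ind u a x - ind u a x * rel R v w x) := by
        refine hL.junta {u, v, w} hS _ ?_ fun x => ?_
        · intro x y h
          have d1 := Mx.dep_mul (Mx.dep_ind u a {u, v, w} (by simp))
            (dep_rel R v w {u, v, w} (by simp) (by simp)) x y h
          have d2 := Mx.dep_ind u a {u, v, w} (by simp) x y h
          show ind u a x - ind u a x * rel R v w x = ind u a y - ind u a y * rel R v w y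
          simp only at d1
          rw [d1, d2]
        · have := mul_le_mul_of_nonneg_left (rel_le_one R v w x) (Mx.ind_nonneg u a x)
          linarith
      have h4 : (fun x : V → A => ind u a x - ind u a x * rel R v w x) =
          ind u a - fun x => ind u a x * rel R v w x := rfl
      rw [h4, map_sub] at h3
      have h5 : L (ind u a) = 0 := ha
      linarith
    · rw [mul_div_cancel₀ _ ha]
  simp only [h1]
  rw [← map_sum]
  congr 1
  funext x
  rw [Finset.sum_apply, ← Finset.sum_mul, FB.sum_ind, one_mul]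

/-- value of independent rounding on a constraint -/
noncomputable def rdv (L : ((V → A) → ℝ) →ₗ[ℝ] ℝ) (R : Finset (A × A)) (u v : V) : ℝ :=
  if u = v then L (rel R u v) else ∑ p ∈ R, pr L u p.1 * pr L v p.2

omit [DecidableEq A] in
/-- the edge inequality -/
theorem edge_law {r : A → A → ℝ} {p q : A → ℝ} (h : IsLaw r p q) (hq1 : ∑ b, q b = 1)
    [DecidableEq A] (R : Finset (A × A)) (d : ℕ)
    (hR1 : ∀ a, (univ.filter fun b => (a, b) ∈ R).card ≤ d)
    (hR2 : ∀ b, (univ.filter fun a => (a, b) ∈ R).card ≤ d) :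
    (∑ x ∈ R, (r x.1 x.2 - p x.1 * q x.2)) ^ 2 ≤ d * ker r p q := by
  have hp0 : ∀ a, 0 ≤ p a := fun a => by
    rw [← h.left a]; exact sum_nonneg fun b _ => h.nonneg a b
  have hq0 : ∀ b, 0 ≤ q b := fun b => by
    rw [← h.right b]; exact sum_nonneg fun a _ => h.nonneg a b
  have hcs := Finset.sum_sq_le_sum_mul_sum_of_sq_le_mul R
    (r := fun x => r x.1 x.2 - p x.1 * q x.2)
    (f := fun x => (r x.1 x.2 - p x.1 * q x.2) ^ 2 / Real.sqrt (p x.1 * q x.2))
    (g := fun x => Real.sqrt (p x.1 * q x.2))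
    (fun x _ => div_nonneg (sq_nonneg _) (Real.sqrt_nonneg _))
    (fun x _ => Real.sqrt_nonneg _)
    (fun x _ => by
      rcases (mul_nonneg (hp0 x.1) (hq0 x.2)).eq_or_lt with h0 | h0
      · have hr : r x.1 x.2 = 0 := by
          rcases mul_eq_zero.1 h0.symm with hz | hz
          · refine le_antisymm ?_ (h.nonneg _ _)
            rw [← hz, ← h.left x.1]
            exact single_le_sum (f := fun b => r x.1 b) (fun b _ => h.nonneg _ b) (mem_univ _)
          · refine le_antisymm ?_ (h.nonneg _ _)
            rw [← hz, ← h.right x.2]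
            exact single_le_sum (f := fun a => r a x.2) (fun a _ => h.nonneg a _) (mem_univ _)
        rw [← h0, hr]; simp
      · have : 0 < Real.sqrt (p x.1 * q x.2) := Real.sqrt_pos.2 h0
        rw [div_mul_cancel₀ _ this.ne'])
  have h1 : ∑ x ∈ R, (r x.1 x.2 - p x.1 * q x.2) ^ 2 / Real.sqrt (p x.1 * q x.2) ≤ ker r p q := by
    unfold ker
    rw [← Fintype.sum_prod_type (f := fun x : A × A =>
      (r x.1 x.2 - p x.1 * q x.2) ^ 2 / Real.sqrt (p x.1 * q x.2))]
    exact sum_le_sum_of_subset_of_nonneg (subset_univ _) fun x _ _ =>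
      div_nonneg (sq_nonneg _) (Real.sqrt_nonneg _)
  have h2 : ∑ x ∈ R, Real.sqrt (p x.1 * q x.2) ≤ d := by
    have e1 : ∀ x ∈ R, Real.sqrt (p x.1 * q x.2) ≤ (p x.1 + q x.2) / 2 := by
      intro x _
      rw [Real.sqrt_le_left (by linarith [hp0 x.1, hq0 x.2])]
      nlinarith [sq_nonneg (p x.1 - q x.2)]
    have e2 : ∑ x ∈ R, p x.1 ≤ d := by
      have : ∑ x ∈ R, p x.1 = ∑ a, ((univ.filter fun b => (a, b) ∈ R).card : ℝ) * p a := by
        have e3 : ∑ x ∈ R, p x.1 = ∑ x : A × A, if x ∈ R then p x.1 else 0 := by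
          rw [← Finset.sum_filter]
          congr 1
          ext x; simp
        rw [e3, Fintype.sum_prod_type]
        refine sum_congr rfl fun a _ => ?_
        rw [← Finset.sum_filter]
        simp
      rw [this, ← mul_one (d : ℝ), ← h.one, mul_sum]
      refine sum_le_sum fun a _ => mul_le_mul_of_nonneg_right ?_ (hp0 a)
      exact_mod_cast hR1 a
    have e4 : ∑ x ∈ R, q x.2 ≤ d := by
      have : ∑ x ∈ R, q x.2 = ∑ b, ((univ.filter fun a => (a, b) ∈ R).card : ℝ) * q b := by
        have e3 : ∑ x ∈ R, q x.2 = ∑ x : A × A, if x ∈ R then q x.2 else 0 := by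
          rw [← Finset.sum_filter]
          congr 1
          ext x; simp
        rw [e3, Fintype.sum_prod_type, sum_comm]
        refine sum_congr rfl fun a _ => ?_
        rw [← Finset.sum_filter]
        simp
      rw [this, ← mul_one (d : ℝ), ← hq1, mul_sum]
      refine sum_le_sum fun a _ => mul_le_mul_of_nonneg_right ?_ (hq0 a)
      exact_mod_cast hR2 a
    refine (sum_le_sum e1).trans ?_
    rw [← sum_div, sum_add_distrib]
    linarith
  have h3 : 0 ≤ ker r p q := by
    unfold ker
    exact sum_nonneg fun a _ => sum_nonneg fun b _ => div_nonneg (sq_nonneg _) (Real.sqrt_nonneg _)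
  calc _ ≤ _ := hcs
    _ ≤ ker r p q * d := mul_le_mul h1 h2 (sum_nonneg fun x _ => Real.sqrt_nonneg _) h3
    _ = d * ker r p q := mul_comm _ _

/-- the edge inequality for a solution of the hierarchy -/
theorem edge_ineq {k : ℕ} {L : ((V → A) → ℝ) →ₗ[ℝ] ℝ} (hL : Mixed k L) (R : Finset (A × A)) (d : ℕ)
    (hR1 : ∀ a, (univ.filter fun b => (a, b) ∈ R).card ≤ d)
    (hR2 : ∀ b, (univ.filter fun a => (a, b) ∈ R).card ≤ d) (u v : V) :
    (L (rel R u v) - rdv L R u v) ^ 2 ≤ d * kr L u v := by
  have h := Mx.law hL u v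
  have hq1 : ∑ b, pr L v b = 1 := (Mx.law hL v u).one
  have hk := edge_law h hq1 R d hR1 hR2
  unfold rdv
  split_ifs with huv
  · rw [sub_self]
    have h3 : 0 ≤ ker (pr2 L u v) (pr L u) (pr L v) := by
      unfold ker
      exact sum_nonneg fun a _ => sum_nonneg fun b _ =>
        div_nonneg (sq_nonneg _) (Real.sqrt_nonneg _)
    have : (0 : ℝ) ^ 2 = 0 := by norm_num
    rw [this]
    unfold kr
    positivity
  · rw [rel_eq, ← sum_sub_distrib]
    exact hk

end Pool.Agent.helper747_ug
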