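import Pool.Agent.helper747_ug.Rel

/-!
# Conditioning inside a part
-/

set_option autoImplicit false

namespace Pool.Agent.helper747_ug

open Finset Pool.Agent.H647R3.UG Pool.Agent.TH522.UG

variable {V A E : Type} [Fintype V] [DecidableEq V] [Fintype A] [DecidableEq A] [Fintype E]

/-- value inside a part -/
noncomputable def Vl (s t : E → V) (R : E → Finset (A × A)) (S : Finset V)
    (L : ((V → A) → ℝ) →ₗ[ℝ] ℝ) : ℝ := ∑ e ∈ ins s t S, L (rel (R e) (s e) (t e))

/-- value of independent rounding inside a part -/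
noncomputable def Rd (s t : E → V) (R : E → Finset (A × A)) (S : Finset V)
    (L : ((V → A) → ℝ) →ₗ[ℝ] ℝ) : ℝ := ∑ e ∈ ins s t S, rdv L (R e) (s e) (t e)

/-- variance inside a part -/
noncomputable def Ph (s t : E → V) (S : Finset V) (L : ((V → A) → ℝ) →ₗ[ℝ] ℝ) : ℝ :=
  ∑ v ∈ S, dS (wt s t) S v * vr L v

omit [Fintype V] [Fintype A] [DecidableEq A] in
theorem wi_ins [Fintype V] (s t : E → V) (S : Finset V) : wi (wt s t) S = 2 * ((ins s t S).card : ℝ) := by
  obtain ⟨-, -, -, -, -, -, h, -, -⟩ := T_WT V E s t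
  have := h S (fun _ _ => 1) (fun _ _ => rfl)
  simp only [mul_one, sum_const, nsmul_eq_mul] at this
  exact this

theorem vr_mem {k : ℕ} {L : ((V → A) → ℝ) →ₗ[ℝ] ℝ} (hL : Mixed k L) (v : V) :
    0 ≤ vr L v ∧ vr L v ≤ 1 := by
  have h1 : ∑ a, pr L v a = 1 := (Mx.law hL v v).one
  have h0 := Mx.pr_nonneg hL v
  refine ⟨?_, ?_⟩
  · unfold vr
    rw [sub_nonneg, ← h1]
    refine sum_le_sum fun a _ => ?_
    have h2 : pr L v a ≤ 1 := by
      rw [← h1]
      exact single_le_sum (f := fun a => pr L v a) (fun b _ => h0 b) (mem_univ a)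
    have := h0 a
    nlinarith
  · unfold vr
    have : 0 ≤ ∑ b, pr L v b ^ 2 := sum_nonneg fun b _ => sq_nonneg _
    linarith

/-- correlated pairs give a good vertex for conditioning -/
theorem cond_vertex {k : ℕ} {L : ((V → A) → ℝ) →ₗ[ℝ] ℝ} (hL : Mixed k L) (s t : E → V)
    (S : Finset V) (Δ : ℝ) (hpos : 0 < wi (wt s t) S)
    (hcor : Δ * wi (wt s t) S ^ 2 ≤
      ∑ u ∈ S, ∑ v ∈ S, dS (wt s t) S u * dS (wt s t) S v * kr L u v ^ 2) :
    ∃ u ∈ S, ∑ a, pr L u a * Ph s t S (cnd L u a) ≤ Ph s t S L - Δ * wi (wt s t) S := by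
  obtain ⟨hw0, hws, -, -, -, -, -, -, -⟩ := T_WT V E s t
  set D := dS (wt s t) S with hD
  have hD0 : ∀ u, 0 ≤ D u := dS_nonneg hw0 S
  set W := wi (wt s t) S with hW
  have hdec : ∀ u, ∑ a, pr L u a * Ph s t S (cnd L u a) =
      Ph s t S L - ∑ v ∈ S, D v * dec L u v := by
    intro u
    unfold Ph
    simp only [mul_sum]
    rw [sum_comm, ← sum_sub_distrib]
    refine sum_congr rfl fun v _ => ?_
    rw [Mx.fd hL u v, ← hD]
    rw [mul_sub, sub_sub_cancel, mul_sum]
    exact sum_congr rfl fun a _ => by ring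
  by_contra hcon
  push Not at hcon
  have hX : ∀ u ∈ S, ∑ v ∈ S, D v * dec L u v < Δ * W := by
    intro u hu
    have := hcon u hu
    rw [hdec] at this
    linarith
  -- kernel bounds
  have hk : ∀ u v, kr L u v ^ 2 ≤ (dec L u v + dec L v u) / 2 := by
    intro u v
    obtain ⟨h1, h2, h3, h4⟩ := T_RD A (pr2 L u v) (pr L u) (pr L v) (Mx.law hL u v)
    have e : ∑ a, ∑ b, (pr2 L u v a b - pr L u a * pr L v b) ^ 2 / pr L v b = dec L v u := by
      unfold dec
      rw [sum_comm]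
      refine sum_congr rfl fun b _ => sum_congr rfl fun a _ => ?_
      rw [FB.symm L u v a b]
      ring_nf
    rw [e] at h2 h4
    change kr L u v ≤ (dec L u v + dec L v u) / 2 at h2
    change 0 ≤ kr L u v at h1
    change dec L u v ≤ 1 at h3
    have h5 : kr L u v ≤ 1 := by linarith
    have h6 : kr L u v ^ 2 ≤ kr L u v := by nlinarith
    exact h6.trans h2
  have hsum : ∑ u ∈ S, ∑ v ∈ S, D u * D v * kr L u v ^ 2 ≤
      ∑ u ∈ S, D u * ∑ v ∈ S, D v * dec L u v := by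
    have h1 : ∑ u ∈ S, ∑ v ∈ S, D u * D v * kr L u v ^ 2 ≤
        ∑ u ∈ S, ∑ v ∈ S, D u * D v * ((dec L u v + dec L v u) / 2) :=
      sum_le_sum fun u _ => sum_le_sum fun v _ =>
        mul_le_mul_of_nonneg_left (hk u v) (mul_nonneg (hD0 u) (hD0 v))
    have h2 : ∑ u ∈ S, ∑ v ∈ S, D u * D v * ((dec L u v + dec L v u) / 2) =
        (∑ u ∈ S, ∑ v ∈ S, D u * D v * dec L u v + ∑ u ∈ S, ∑ v ∈ S, D u * D v * dec L v u) / 2 := by
      rw [← sum_add_distrib, sum_div]
      refine sum_congr rfl fun u _ => ?_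
      rw [← sum_add_distrib, sum_div]
      exact sum_congr rfl fun v _ => by ring
    have h3 : ∑ u ∈ S, ∑ v ∈ S, D u * D v * dec L v u =
        ∑ u ∈ S, ∑ v ∈ S, D u * D v * dec L u v := by
      rw [sum_comm]
      exact sum_congr rfl fun u _ => sum_congr rfl fun v _ => by ring
    have h4 : ∑ u ∈ S, ∑ v ∈ S, D u * D v * dec L u v =
        ∑ u ∈ S, D u * ∑ v ∈ S, D v * dec L u v := by
      refine sum_congr rfl fun u _ => ?_
      rw [mul_sum]
      exact sum_congr rfl fun v _ => by ring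
    rw [h2, h3, h4] at h1
    linarith
  have hWe : W = ∑ u ∈ S, D u := rfl
  have hlt : ∑ u ∈ S, D u * ∑ v ∈ S, D v * dec L u v < ∑ u ∈ S, D u * (Δ * W) := by
    refine sum_lt_sum (fun u hu => mul_le_mul_of_nonneg_left (hX u hu).le (hD0 u)) ?_
    have : ∃ u ∈ S, 0 < D u := by
      by_contra hno
      push Not at hno
      have : W ≤ 0 := by
        rw [hWe]; exact sum_nonpos hno
      linarith
    obtain ⟨u, hu, hu0⟩ := this
    exact ⟨u, hu, mul_lt_mul_of_pos_left (hX u hu) hu0⟩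
  rw [← sum_mul, ← hWe] at hlt
  have : Δ * W ^ 2 < Δ * W ^ 2 := by
    calc Δ * W ^ 2 ≤ _ := hcor
      _ ≤ _ := hsum
      _ < W * (Δ * W) := hlt
      _ = Δ * W ^ 2 := by ring
  exact lt_irrefl _ this

/-- if independent rounding is bad although the value is large, the solution is locally
correlated -/
theorem local_corr {k : ℕ} {L : ((V → A) → ℝ) →ₗ[ℝ] ℝ} (hL : Mixed k L) (s t : E → V)
    (R : E → Finset (A × A)) (S : Finset V) (d : ℕ) (hd : 1 ≤ d)
    (hR1 : ∀ e a, (univ.filter fun b => (a, b) ∈ R e).card ≤ d)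
    (hR2 : ∀ e b, (univ.filter fun a => (a, b) ∈ R e).card ≤ d) (c : ℝ) (hc : 0 < c)
    (hgap : c / 8 * ((ins s t S).card : ℝ) ≤ Vl s t R S L - Rd s t R S L) :
    c ^ 2 / (64 * d) * wi (wt s t) S ≤ ∑ u ∈ S, ∑ v ∈ S, wt s t u v * kr L u v := by
  have hd0 : (0 : ℝ) < d := by exact_mod_cast hd
  obtain ⟨-, -, -, -, -, -, h7, -, -⟩ := T_WT V E s t
  obtain ⟨J, instJ, U, hU⟩ := Mx.gram hL
  have hsym : ∀ u v, kr L u v = kr L v u := by
    intro u v
    rw [hU, hU]
    exact sum_congr rfl fun j _ => mul_comm _ _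
  rw [h7 S (fun u v => kr L u v) hsym, wi_ins]
  set m : ℝ := ((ins s t S).card : ℝ) with hm
  have hm0 : 0 ≤ m := Nat.cast_nonneg _
  have h1 : (Vl s t R S L - Rd s t R S L) ^ 2 ≤
      m * ∑ e ∈ ins s t S, d * kr L (s e) (t e) := by
    unfold Vl Rd
    rw [← sum_sub_distrib]
    refine (sq_sum_le_card_mul_sum_sq).trans ?_
    refine mul_le_mul_of_nonneg_left ?_ hm0
    exact sum_le_sum fun e _ => edge_ineq hL (R e) d (hR1 e) (hR2 e) _ _
  have h2 : (c / 8 * m) ^ 2 ≤ (Vl s t R S L - Rd s t R S L) ^ 2 :=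
    pow_le_pow_left₀ (by positivity) hgap 2
  rw [← mul_sum] at h1
  set K := ∑ e ∈ ins s t S, kr L (s e) (t e) with hK
  rcases hm0.eq_or_lt with h0 | h0
  · have hK0 : 0 ≤ K := by
      have : ins s t S = ∅ := by
        rw [← Finset.card_eq_zero]
        have : ((ins s t S).card : ℝ) = 0 := by rw [← hm, ← h0]
        exact_mod_cast this
      rw [hK, this]; simp
    rw [← h0]; simpa using hK0
  · have h3 : m * (c ^ 2 / 64 * m) ≤ m * (d * K) := by
      calc m * (c ^ 2 / 64 * m) = (c / 8 * m) ^ 2 := by ring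
        _ ≤ _ := h2.trans h1
    have h4 := le_of_mul_le_mul_left h3 h0
    have h5 : c ^ 2 / (64 * d) * m ≤ K := by
      rw [div_mul_eq_mul_div, div_le_iff₀ (by positivity)]
      nlinarith
    linarith

/-- the conditioning process -/
theorem cond_process (s t : E → V) (R : E → Finset (A × A)) (S : Finset V)
    (c Δ : ℝ) (hc : 0 < c) (hΔ : 0 < Δ) (hm : 0 < ((ins s t S).card : ℝ))
    (hcor : ∀ (k : ℕ) (L : ((V → A) → ℝ) →ₗ[ℝ] ℝ), Mixed k L →
      c / 8 * ((ins s t S).card : ℝ) ≤ Vl s t R S L - Rd s t R S L →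
      Δ * wi (wt s t) S ^ 2 ≤
        ∑ u ∈ S, ∑ v ∈ S, dS (wt s t) S u * dS (wt s t) S v * kr L u v ^ 2)
    (hno : ∀ (k : ℕ) (L : ((V → A) → ℝ) →ₗ[ℝ] ℝ), Mixed k L →
      Rd s t R S L < c / 8 * ((ins s t S).card : ℝ)) :
    ∀ (j : ℕ) (L : ((V → A) → ℝ) →ₗ[ℝ] ℝ), Mixed j L →
      2 * j * Δ * (Vl s t R S L - c / 4 * ((ins s t S).card : ℝ)) ≤ Ph s t S L := by
  obtain ⟨hw0, hws, -, -, -, -, -, -, -⟩ := T_WT V E s t
  set m : ℝ := ((ins s t S).card : ℝ) with hmdef
  have hPh0 : ∀ (k : ℕ) (L : ((V → A) → ℝ) →ₗ[ℝ] ℝ), Mixed k L → 0 ≤ Ph s t S L := fun k L hL =>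
    sum_nonneg fun v _ => mul_nonneg (dS_nonneg hw0 S v) (vr_mem hL v).1
  have hVm : ∀ (k : ℕ) (L : ((V → A) → ℝ) →ₗ[ℝ] ℝ), Mixed k L → Vl s t R S L ≤ m := by
    intro k L hL
    unfold Vl
    refine (sum_le_sum fun e _ => rel_val_le hL (R e) (s e) (t e)).trans ?_
    simp [hmdef]
  intro j
  induction j with
  | zero =>
    intro L hL
    simpa using hPh0 0 L hL
  | succ j ih =>
    intro L hL
    by_cases hV : Vl s t R S L ≤ c / 4 * m
    · refine le_trans ?_ (hPh0 _ L hL)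
      refine mul_nonpos_of_nonneg_of_nonpos (by positivity) (by linarith)
    · push Not at hV
      have hgap : c / 8 * m ≤ Vl s t R S L - Rd s t R S L := by
        have := hno _ L hL
        linarith
      have hwi : wi (wt s t) S = 2 * m := wi_ins s t S
      obtain ⟨u, hu, hdecr⟩ := cond_vertex hL s t S Δ (by rw [hwi]; linarith) (hcor _ L hL hgap)
      have hp1 : ∑ a, pr L u a = 1 := (Mx.law hL u u).one
      have hp0 := Mx.pr_nonneg hL u
      have havg : ∑ a, pr L u a * Vl s t R S (cnd L u a) = Vl s t R S L := by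
        unfold Vl
        simp only [mul_sum]
        rw [sum_comm]
        exact sum_congr rfl fun e _ => avg_rel hL (R e) u (s e) (t e)
      have hih : ∑ a, pr L u a * (2 * j * Δ * (Vl s t R S (cnd L u a) - c / 4 * m)) ≤
          ∑ a, pr L u a * Ph s t S (cnd L u a) := by
        refine sum_le_sum fun a _ => ?_
        rcases (hp0 a).eq_or_lt with h | h
        · rw [← h, zero_mul, zero_mul]
        · exact mul_le_mul_of_nonneg_left (ih _ (Mx.step hL u a h)) h.le
      have hl : ∑ a, pr L u a * (2 * j * Δ * (Vl s t R S (cnd L u a) - c / 4 * m)) =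
          2 * j * Δ * (Vl s t R S L - c / 4 * m) := by
        have : ∀ a, pr L u a * (2 * j * Δ * (Vl s t R S (cnd L u a) - c / 4 * m)) =
            2 * j * Δ * (pr L u a * Vl s t R S (cnd L u a)) -
              2 * j * Δ * (c / 4 * m) * pr L u a := fun a => by ring
        simp only [this]
        rw [sum_sub_distrib, ← mul_sum, ← mul_sum, havg, hp1]
        ring
      rw [hl] at hih
      have hVm' := hVm _ L hL
      have h3 : 2 * Δ * (Vl s t R S L - c / 4 * m) ≤ Δ * wi (wt s t) S := by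
        rw [hwi]
        have : Vl s t R S L - c / 4 * m ≤ m := by
          have : 0 ≤ c / 4 * m := by positivity
          linarith
        nlinarith
      push_cast
      linarith

/-- a part can be rounded -/
theorem part_round (s t : E → V) (R : E → Finset (A × A)) (S : Finset V)
    (c Δ : ℝ) (hc : 0 < c) (hΔ : 0 < Δ) (k : ℕ) (hk : 4 < k * Δ * c)
    (hcor : ∀ (k : ℕ) (L : ((V → A) → ℝ) →ₗ[ℝ] ℝ), Mixed k L → 0 < ((ins s t S).card : ℝ) →
      c / 8 * ((ins s t S).card : ℝ) ≤ Vl s t R S L - Rd s t R S L →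
      Δ * wi (wt s t) S ^ 2 ≤
        ∑ u ∈ S, ∑ v ∈ S, dS (wt s t) S u * dS (wt s t) S v * kr L u v ^ 2)
    (L : ((V → A) → ℝ) →ₗ[ℝ] ℝ) (hL : Mixed k L)
    (hval : c / 2 * ((ins s t S).card : ℝ) ≤ Vl s t R S L) :
    ∃ (j : ℕ) (L' : ((V → A) → ℝ) →ₗ[ℝ] ℝ), Mixed j L' ∧
      c / 8 * ((ins s t S).card : ℝ) ≤ Rd s t R S L' := by
  set m : ℝ := ((ins s t S).card : ℝ) with hmdef
  have hm0 : 0 ≤ m := Nat.cast_nonneg _
  rcases hm0.eq_or_lt with h0 | h0
  · refine ⟨k, L, hL, ?_⟩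
    have : ins s t S = ∅ := by
      rw [← Finset.card_eq_zero]
      have : ((ins s t S).card : ℝ) = 0 := by rw [← hmdef, ← h0]
      exact_mod_cast this
    rw [← h0]
    unfold Rd
    rw [this]
    simp
  · by_contra hcon
    push Not at hcon
    have h1 := cond_process s t R S c Δ hc hΔ h0 (fun k L hL hg => hcor k L hL h0 hg) hcon k L hL
    rw [← hmdef] at h1
    obtain ⟨hw0, -, -, -, -, -, -, -, -⟩ := T_WT V E s t
    have h2 : Ph s t S L ≤ 2 * m := by
      rw [hmdef, ← wi_ins]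
      unfold Ph
      rw [wi_eq]
      refine sum_le_sum fun v _ => ?_
      exact mul_le_of_le_one_right (dS_nonneg hw0 S v) (vr_mem hL v).2
    have h3 : 2 * k * Δ * (c / 4 * m) ≤ 2 * k * Δ * (Vl s t R S L - c / 4 * m) := by
      refine mul_le_mul_of_nonneg_left ?_ (by positivity)
      linarith
    have h4 : 4 * m < k * Δ * c * m := mul_lt_mul_of_pos_right hk h0
    have h5 : 2 * k * Δ * (c / 4 * m) = (k * Δ * c * m) / 2 := by ring
    linarith

end Pool.Agent.helper747_ug
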