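import Pool.Agent.helper747_ug.Walk

/-!
# Decay of the square norm under the walk
-/

set_option autoImplicit false

namespace Pool.Agent.helper747_ug

open Finset Pool.Agent.H647R3.UG

variable {W : Type} [Fintype W]

theorem ip_one_le {w : W → W → ℝ} (hw : Nt w) (f : W → ℝ) :
    (∑ u, Dg w u * f u) ^ 2 ≤ vol (Dg w) univ * ip (Dg w) f f := by
  have h := Finset.sum_sq_le_sum_mul_sum_of_sq_le_mul (univ : Finset W)
    (r := fun u => Dg w u * f u) (f := fun u => Dg w u) (g := fun u => Dg w u * f u * f u)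
    (fun u _ => (hw.pos u).le)
    (fun u _ => by
      have := mul_nonneg (hw.pos u).le (mul_self_nonneg (f u))
      linarith)
    (fun u _ => le_of_eq (by ring))
  exact h

/-- one step of the walk -/
theorem step_decay {w : W → W → ℝ} (hw : Nt w) (α : ℝ) (hα : 0 < α) (hα1 : α ≤ 1)
    (hT : ∀ T : Finset W, wi w T ≤ 2 * (2 * vol (Dg w) T / vol (Dg w) univ) ^ α * vol (Dg w) T)
    (f : W → ℝ) (hf : ∀ u, 0 ≤ f u) (h1 : ∑ u, Dg w u * f u = 1) :
    vol (Dg w) univ * ip (Dg w) (Pw w f) (Pw w f) ≤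
      18 * (vol (Dg w) univ * ip (Dg w) f f) ^ (1 - α / (2 * (1 + α))) := by
  set Wt := vol (Dg w) univ with hWt
  set X := ip (Dg w) f f with hX
  set γ := α / (2 * (1 + α)) with hγ
  have hWX : 1 ≤ Wt * X := by
    have := ip_one_le hw f
    rw [h1] at this
    simpa using this
  have hWp : 0 < Wt := by
    have : 0 ≤ Wt := sum_nonneg fun u _ => (hw.pos u).le
    rcases this.eq_or_lt with h | h
    · rw [← h] at hWX; norm_num at hWX
    · exact h
  have hXp : 0 < X := by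
    by_contra hneg
    have := mul_nonpos_of_nonneg_of_nonpos hWp.le (not_lt.1 hneg)
    linarith
  set h : W → ℝ := fun u => f u + Pw w f u with hh
  have hPn := Pw_nonneg hw hf
  have hhn : ∀ u, 0 ≤ h u := fun u => add_nonneg (hf u) (hPn u)
  have hM : ∑ u, Dg w u * h u = 2 := by
    simp only [hh, mul_add, sum_add_distrib]
    rw [Pw_mass hw, h1]; norm_num
  have bff : 0 ≤ Bf w f f := sum_nonneg fun u _ => sum_nonneg fun v _ =>
    mul_nonneg (hw.nonneg _ _) (mul_nonneg (hf u) (hf v))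
  have bpp : 0 ≤ Bf w (Pw w f) (Pw w f) := sum_nonneg fun u _ => sum_nonneg fun v _ =>
    mul_nonneg (hw.nonneg _ _) (mul_nonneg (hPn u) (hPn v))
  have bffX : Bf w f f ≤ X := by
    have := Bf_sq_le hw f f
    exact abs_le_of_sq_le_sq' (this.trans (le_of_eq (by rw [sq]))) hXp.le |>.2
  have hPP : ip (Dg w) (Pw w f) (Pw w f) ≤ X := Pw_contr hw f
  have hPP0 := ip_self_nonneg hw (Pw w f)
  have hXh : ip (Dg w) h h = X + 2 * Bf w f f + ip (Dg w) (Pw w f) (Pw w f) := by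
    rw [Bf_eq_ip hw, hX]
    unfold ip
    rw [mul_sum, ← sum_add_distrib, ← sum_add_distrib]
    refine sum_congr rfl fun u _ => ?_
    simp only [hh]
    ring
  have hXh1 : X ≤ ip (Dg w) h h := by rw [hXh]; linarith
  have hXh2 : ip (Dg w) h h ≤ 4 * X := by rw [hXh]; linarith
  have hBh : 2 * ip (Dg w) (Pw w f) (Pw w f) ≤ Bf w h h := by
    have e : Bf w h h = Bf w f f + 2 * ip (Dg w) (Pw w f) (Pw w f) +
        Bf w (Pw w f) (Pw w f) := by
      have e1 : Bf w f (Pw w f) = ip (Dg w) (Pw w f) (Pw w f) := by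
        rw [Bf_eq_ip hw, ← Pw_adj hw]
      rw [hh, Bf_add, Bf_symm hw f, Bf_symm hw (Pw w f), Bf_add, Bf_add,
        Bf_symm hw (Pw w f) f, e1]
      ring
    rw [e]; linarith
  -- choice of the parameter
  set δ := 1 / (Wt * X) with hδ
  have hδ0 : 0 < δ := by positivity
  have hδ1 : δ ≤ 1 := by
    rw [hδ, div_le_one (by positivity)]; exact hWX
  have hγ0 : 0 < γ := by positivity
  have hγ2 : 1 - 2 * γ = 1 / (1 + α) := by
    rw [hγ]; field_simp; ring
  have hη0 : 0 < δ ^ (2 * γ) := Real.rpow_pos_of_pos hδ0 _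
  have hη1 : δ ^ (2 * γ) ≤ 1 := Real.rpow_le_one hδ0.le hδ1 (by positivity)
  have key := sparse_bound hw α hα hT h hhn 2 (ip (Dg w) h h) (δ ^ (2 * γ)) hM rfl
    (lt_of_lt_of_le hXp hXh1) hη0 hη1 (by norm_num)
  have hsq : Real.sqrt (δ ^ (2 * γ)) = δ ^ γ := by
    rw [show 2 * γ = γ * (2 : ℕ) by push_cast; ring, Real.rpow_mul_natCast hδ0.le,
      Real.sqrt_sq (Real.rpow_nonneg hδ0.le _)]
  have hmain : (2 * ((2 : ℝ) ^ 2 / (δ ^ (2 * γ) * ip (Dg w) h h)) / Wt) ^ (α / 2) ≤ 3 * δ ^ γ := by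
    have a1 : 2 * ((2 : ℝ) ^ 2 / (δ ^ (2 * γ) * ip (Dg w) h h)) / Wt ≤ 8 * δ ^ (1 - 2 * γ) := by
      have a2 : 2 * ((2 : ℝ) ^ 2 / (δ ^ (2 * γ) * ip (Dg w) h h)) / Wt ≤
          2 * ((2 : ℝ) ^ 2 / (δ ^ (2 * γ) * X)) / Wt := by
        refine div_le_div_of_nonneg_right ?_ hWp.le
        refine mul_le_mul_of_nonneg_left ?_ (by norm_num)
        refine div_le_div_of_nonneg_left (by positivity) (by positivity) ?_
        exact mul_le_mul_of_nonneg_left hXh1 hη0.le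
      refine a2.trans (le_of_eq ?_)
      rw [Real.rpow_sub hδ0, Real.rpow_one]
      have : (2 : ℝ) * (2 ^ 2 / (δ ^ (2 * γ) * X)) / Wt = 8 * ((1 / (Wt * X)) / δ ^ (2 * γ)) := by
        field_simp; ring
      rw [this, ← hδ]
    have a3 : 0 ≤ 2 * ((2 : ℝ) ^ 2 / (δ ^ (2 * γ) * ip (Dg w) h h)) / Wt := by
      have : 0 < ip (Dg w) h h := lt_of_lt_of_le hXp hXh1
      positivity
    refine (Real.rpow_le_rpow a3 a1 (by positivity)).trans ?_
    rw [Real.mul_rpow (by norm_num) (Real.rpow_nonneg hδ0.le _), ← Real.rpow_mul hδ0.le]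
    have a4 : (1 - 2 * γ) * (α / 2) = γ := by
      rw [hγ2, hγ]; field_simp
    rw [a4]
    refine mul_le_mul_of_nonneg_right ?_ (Real.rpow_nonneg hδ0.le _)
    have a5 : (8 : ℝ) ^ (α / 2) ≤ 8 ^ (1 / 2 : ℝ) :=
      Real.rpow_le_rpow_of_exponent_le (by norm_num) (by linarith)
    refine a5.trans ?_
    rw [← Real.sqrt_eq_rpow]
    rw [show (3 : ℝ) = Real.sqrt 9 by
      rw [show (9 : ℝ) = 3 ^ 2 by norm_num, Real.sqrt_sq (by norm_num)]]
    exact Real.sqrt_le_sqrt (by norm_num)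
  have hfin : ip (Dg w) (Pw w f) (Pw w f) ≤ 18 * X * δ ^ γ := by
    rw [hsq] at key
    have b0 : 0 ≤ δ ^ γ := Real.rpow_nonneg hδ0.le _
    have b1 : (2 * (2 * ((2 : ℝ) ^ 2 / (δ ^ (2 * γ) * ip (Dg w) h h)) / Wt) ^ (α / 2) + 3 * δ ^ γ) *
        ip (Dg w) h h ≤ (9 * δ ^ γ) * (4 * X) := by
      refine mul_le_mul ?_ hXh2 (le_trans hXp.le hXh1) (by positivity)
      linarith
    have b2 := hBh.trans (key.trans b1)
    linarith
  calc Wt * ip (Dg w) (Pw w f) (Pw w f) ≤ Wt * (18 * X * δ ^ γ) :=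
        mul_le_mul_of_nonneg_left hfin hWp.le
    _ = 18 * ((Wt * X) * δ ^ γ) := by ring
    _ = 18 * (Wt * X) ^ (1 - γ) := by
        rw [Real.rpow_sub (by positivity), Real.rpow_one, hδ, one_div, Real.inv_rpow (by positivity)]
        rfl

/-- iterates of the walk from a point -/
noncomputable def Kt [DecidableEq W] (w : W → W → ℝ) (t : ℕ) (v : W) : W → ℝ :=
  (Pw w)^[t] (dl (Dg w) v)

theorem Kt_succ [DecidableEq W] (w : W → W → ℝ) (t : ℕ) (v : W) :
    Kt w (t + 1) v = Pw w (Kt w t v) := by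
  unfold Kt
  rw [Function.iterate_succ_apply']

theorem Kt_facts [DecidableEq W] {w : W → W → ℝ} (hw : Nt w) (v : W) :
    ∀ t : ℕ, (∀ u, 0 ≤ Kt w t v u) ∧ ∑ u, Dg w u * Kt w t v u = 1 := by
  intro t
  induction t with
  | zero =>
    refine ⟨fun u => ?_, ?_⟩
    · show 0 ≤ dl (Dg w) v u
      unfold dl
      split_ifs
      · exact (one_div_pos.2 (hw.pos v)).le
      · exact le_rfl
    · show ∑ u, Dg w u * dl (Dg w) v u = 1
      unfold dl
      simp only [mul_ite, mul_zero, Finset.sum_ite_eq', mem_univ, if_true]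
      exact mul_one_div_cancel (hw.pos v).ne'
  | succ t ih =>
    rw [Kt_succ]
    exact ⟨Pw_nonneg hw ih.1, by rw [Pw_mass hw]; exact ih.2⟩

/-- norm of the iterates -/
theorem Kt_decay [DecidableEq W] {w : W → W → ℝ} (hw : Nt w) (α : ℝ) (hα : 0 < α) (hα1 : α ≤ 1)
    (hT : ∀ T : Finset W, wi w T ≤ 2 * (2 * vol (Dg w) T / vol (Dg w) univ) ^ α * vol (Dg w) T)
    (v : W) : ∀ t : ℕ, vol (Dg w) univ * ip (Dg w) (Kt w t v) (Kt w t v) ≤
      18 ^ (1 / (α / (2 * (1 + α)))) *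
        (vol (Dg w) univ / Dg w v) ^ ((1 - α / (2 * (1 + α))) ^ t) := by
  set γ := α / (2 * (1 + α)) with hγ
  have hγ0 : 0 < γ := by positivity
  have hγ1 : γ < 1 := by
    rw [hγ, div_lt_one (by positivity)]; linarith
  intro t
  induction t with
  | zero =>
    have e : ip (Dg w) (Kt w 0 v) (Kt w 0 v) = 1 / Dg w v := by
      show ip (Dg w) (dl (Dg w) v) (dl (Dg w) v) = 1 / Dg w v
      unfold ip dl
      have h := (hw.pos v).ne'
      rw [Finset.sum_eq_single v]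
      · simp only [if_true]; field_simp
      · intro b _ hb; simp [hb]
      · simp
    rw [e, pow_zero, Real.rpow_one, mul_one_div]
    have hW : 0 ≤ vol (Dg w) univ / Dg w v :=
      div_nonneg (sum_nonneg fun u _ => (hw.pos u).le) (hw.pos v).le
    have h18 : (1 : ℝ) ≤ 18 ^ (1 / γ) := Real.one_le_rpow (by norm_num) (by positivity)
    nlinarith
  | succ t ih =>
    obtain ⟨hn, hm⟩ := Kt_facts hw v t
    have h := step_decay hw α hα hα1 hT (Kt w t v) hn hm
    rw [← Kt_succ] at h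
    refine h.trans ?_
    have hW0 : 0 ≤ vol (Dg w) univ := sum_nonneg fun u _ => (hw.pos u).le
    have hq : 0 ≤ vol (Dg w) univ / Dg w v := div_nonneg hW0 (hw.pos v).le
    have h0 : 0 ≤ vol (Dg w) univ * ip (Dg w) (Kt w t v) (Kt w t v) :=
      mul_nonneg hW0 (ip_self_nonneg hw _)
    have h2 := Real.rpow_le_rpow h0 ih (by linarith : 0 ≤ 1 - γ)
    refine (mul_le_mul_of_nonneg_left h2 (by norm_num)).trans (le_of_eq ?_)
    rw [Real.mul_rpow (by positivity) (Real.rpow_nonneg hq _), ← Real.rpow_mul (by norm_num),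
      ← Real.rpow_mul hq, ← pow_succ]
    rw [← mul_assoc]
    congr 1
    have : (18 : ℝ) = 18 ^ (1 : ℝ) := (Real.rpow_one 18).symm
    nth_rewrite 1 [this]
    rw [← Real.rpow_add (by norm_num)]
    congr 1
    field_simp
    ring

/-- total norm of the kernel of the walk -/
theorem Kt_total [DecidableEq W] {w : W → W → ℝ} (hw : Nt w) (α : ℝ) (hα : 0 < α) (hα1 : α ≤ 1)
    (hT : ∀ T : Finset W, wi w T ≤ 2 * (2 * vol (Dg w) T / vol (Dg w) univ) ^ α * vol (Dg w) T)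
    (hne : Nonempty W) (t : ℕ) : ∑ v, Dg w v * ip (Dg w) (Kt w t v) (Kt w t v) ≤
      18 ^ (1 / (α / (2 * (1 + α)))) *
        (4 * (Fintype.card W : ℝ) ^ ((1 - α / (2 * (1 + α))) ^ t)) := by
  set γ := α / (2 * (1 + α)) with hγ
  have hγ0 : 0 < γ := by positivity
  have hγ1 : γ < 1 := by
    rw [hγ, div_lt_one (by positivity)]; linarith
  have hW : 0 < vol (Dg w) univ := sum_pos (fun u _ => hw.pos u) univ_nonempty
  have hq0 : 0 ≤ (1 - γ) ^ t := pow_nonneg (by linarith) _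
  have hq1 : (1 - γ) ^ t ≤ 1 := pow_le_one₀ (by linarith) (by linarith)
  have hsq := Pool.Agent.H573R3.SL.T_SQ W (Dg w) ((1 - γ) ^ t) hw.pos hq0 hq1
  refine le_trans ?_ (mul_le_mul_of_nonneg_left hsq (by positivity))
  rw [mul_sum]
  refine sum_le_sum fun v _ => ?_
  have h := Kt_decay hw α hα hα1 hT v t
  rw [← hγ] at h
  have h2 : ip (Dg w) (Kt w t v) (Kt w t v) ≤ 18 ^ (1 / γ) *
      (vol (Dg w) univ / Dg w v) ^ ((1 - γ) ^ t) / vol (Dg w) univ := by
    rw [le_div_iff₀ hW]; linarith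
  have h3 := mul_le_mul_of_nonneg_left h2 (hw.pos v).le
  refine h3.trans ?_
  have h4 : 0 ≤ (vol (Dg w) univ / Dg w v) ^ ((1 - γ) ^ t) :=
    Real.rpow_nonneg (div_nonneg hW.le (hw.pos v).le) _
  have h5 : 0 ≤ Dg w v * (18 ^ (1 / γ) *
      (vol (Dg w) univ / Dg w v) ^ ((1 - γ) ^ t) / vol (Dg w) univ) := by
    have := (hw.pos v).le
    positivity
  calc Dg w v * (18 ^ (1 / γ) * (vol (Dg w) univ / Dg w v) ^ ((1 - γ) ^ t) / vol (Dg w) univ)
      ≤ 4 * (Dg w v * (18 ^ (1 / γ) *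
      (vol (Dg w) univ / Dg w v) ^ ((1 - γ) ^ t) / vol (Dg w) univ)) := by linarith
    _ = 18 ^ (1 / γ) * (Dg w v * (4 / vol (Dg w) univ *
        (vol (Dg w) univ / Dg w v) ^ ((1 - γ) ^ t))) := by ring

end Pool.Agent.helper747_ug
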