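import Pool.Agent.helper747_ug.Decay

/-!
# Global correlation from local correlation
-/

set_option autoImplicit false

namespace Pool.Agent.helper747_ug

open Finset Pool.Agent.H647R3.UG

variable {W J : Type} [Fintype W] [Fintype J]

theorem cs_fam {w : W → W → ℝ} (hw : Nt w) (F G : J → W → ℝ) :
    (∑ j, ip (Dg w) (F j) (G j)) ^ 2 ≤
      (∑ j, ip (Dg w) (F j) (F j)) * ∑ j, ip (Dg w) (G j) (G j) := by
  have h := Finset.sum_sq_le_sum_mul_sum_of_sq_le_mul ((univ : Finset J) ×ˢ (univ : Finset W))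
    (r := fun p => Dg w p.2 * F p.1 p.2 * G p.1 p.2)
    (f := fun p => Dg w p.2 * F p.1 p.2 * F p.1 p.2) (g := fun p => Dg w p.2 * G p.1 p.2 * G p.1 p.2)
    (fun p _ => by
      have := mul_nonneg (hw.pos p.2).le (mul_self_nonneg (F p.1 p.2))
      linarith)
    (fun p _ => by
      have := mul_nonneg (hw.pos p.2).le (mul_self_nonneg (G p.1 p.2))
      linarith)
    (fun p _ => le_of_eq (by ring))
  rw [sum_product, sum_product, sum_product] at h
  exact h

theorem Pw_sum {w : W → W → ℝ} (c : W → ℝ) (g : W → W → ℝ) :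
    Pw w (fun u => ∑ v, c v * g v u) = fun u => ∑ v, c v * Pw w (g v) u := by
  funext u
  unfold Pw
  simp only [mul_sum, ← sum_div, ← mul_div_assoc]
  rw [sum_comm]
  congr 1
  refine sum_congr rfl fun x _ => sum_congr rfl fun v _ => by ring

theorem iter_Kt [DecidableEq W] {w : W → W → ℝ} (hw : Nt w) (f : W → ℝ) :
    ∀ s : ℕ, (Pw w)^[s] f = fun u => ∑ v, (Dg w v * f v) * Kt w s v u := by
  intro s
  induction s with
  | zero =>
    funext u
    show f u = ∑ v, (Dg w v * f v) * dl (Dg w) v u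
    unfold dl
    simp only [mul_ite, mul_zero, Finset.sum_ite_eq, mem_univ, if_true]
    have := (hw.pos u).ne'
    field_simp
  | succ s ih =>
    rw [Function.iterate_succ_apply', ih, Pw_sum]
    simp only [Kt_succ]

theorem iter_adj {w : W → W → ℝ} (hw : Nt w) (f g : W → ℝ) :
    ∀ s : ℕ, ip (Dg w) ((Pw w)^[s] f) g = ip (Dg w) f ((Pw w)^[s] g) := by
  intro s
  induction s generalizing f with
  | zero => rfl
  | succ s ih =>
    rw [Function.iterate_succ_apply, ih, Pw_adj hw, ← Function.iterate_succ_apply' (Pw w) s g]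

/-- global correlation -/
theorem gcorr [DecidableEq W] {w : W → W → ℝ} (hw : Nt w) (hne : Nonempty W) (α κ : ℝ) (hα : 0 < α)
    (hα1 : α ≤ 1)
    (hT : ∀ T : Finset W, wi w T ≤ 2 * (2 * vol (Dg w) T / vol (Dg w) univ) ^ α * vol (Dg w) T)
    (U : J → W → ℝ) (hU : ∀ u, ∑ j, U j u * U j u ≤ 1) (hκ : 0 < κ)
    (hloc : κ * vol (Dg w) univ ≤ ∑ u, ∑ v, w u v * ∑ j, U j u * U j v) (t : ℕ) :
    κ ^ (4 * (t + 1)) * vol (Dg w) univ ^ 2 ≤
      (18 ^ (1 / (α / (2 * (1 + α)))) *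
        (4 * (Fintype.card W : ℝ) ^ ((1 - α / (2 * (1 + α))) ^ (2 * (t + 1))))) *
      ∑ u, ∑ v, Dg w u * Dg w v * (∑ j, U j u * U j v) ^ 2 := by
  set Wt := vol (Dg w) univ with hWt
  have hWp : 0 < Wt := sum_pos (fun u _ => hw.pos u) univ_nonempty
  set a : ℕ → ℝ := fun s => ∑ j, ip (Dg w) ((Pw w)^[s] (U j)) ((Pw w)^[s] (U j)) with ha
  have ha0 : ∀ s, 0 ≤ a s := fun s => sum_nonneg fun j _ => ip_self_nonneg hw _
  have hb : ∑ j, ip (Dg w) (U j) (Pw w (U j)) = ∑ u, ∑ v, w u v * ∑ j, U j u * U j v := by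
    have : ∀ j, ip (Dg w) (U j) (Pw w (U j)) = Bf w (U j) (U j) := fun j => (Bf_eq_ip hw _ _).symm
    simp only [this]
    unfold Bf
    rw [sum_comm]
    refine sum_congr rfl fun u _ => ?_
    rw [sum_comm]
    refine sum_congr rfl fun v _ => ?_
    rw [mul_sum]
  have haW : a 0 ≤ Wt := by
    show ∑ j, ip (Dg w) (U j) (U j) ≤ Wt
    unfold ip
    rw [sum_comm, hWt]
    unfold vol
    refine sum_le_sum fun u _ => ?_
    have : ∑ j, Dg w u * U j u * U j u = Dg w u * ∑ j, U j u * U j u := by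
      rw [mul_sum]; exact sum_congr rfl fun j _ => by ring
    rw [this]
    exact mul_le_of_le_one_right (hw.pos u).le (hU u)
  have hb1 : κ ^ 2 * Wt ^ 2 ≤ a 0 * a 1 := by
    have h1 := cs_fam hw U (fun j => Pw w (U j))
    rw [hb] at h1
    refine le_trans ?_ h1
    rw [← mul_pow]
    exact pow_le_pow_left₀ (by positivity) hloc 2
  have hlc : ∀ s, a (s + 1) ^ 2 ≤ a s * a (s + 2) := by
    intro s
    have h1 := cs_fam hw (fun j => (Pw w)^[s] (U j)) (fun j => (Pw w)^[s + 2] (U j))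
    have h2 : ∑ j, ip (Dg w) ((Pw w)^[s] (U j)) ((Pw w)^[s + 2] (U j)) = a (s + 1) := by
      refine sum_congr rfl fun j _ => ?_
      rw [show s + 2 = (s + 1) + 1 by ring, Function.iterate_succ_apply' (Pw w) (s + 1), ← Pw_adj hw,
        ← Function.iterate_succ_apply' (Pw w) s]
    rw [h2] at h1
    exact h1
  have hpos0 : 0 < a 0 := by
    rcases (ha0 0).eq_or_lt with h | h
    · rw [← h, zero_mul] at hb1
      have : 0 < κ ^ 2 * Wt ^ 2 := by positivity
      linarith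
    · exact h
  have hrat : κ ^ 2 * a 0 ≤ a 1 := by
    have h1 : κ ^ 2 * a 0 ^ 2 ≤ κ ^ 2 * Wt ^ 2 :=
      mul_le_mul_of_nonneg_left (pow_le_pow_left₀ (ha0 0) haW 2) (by positivity)
    have h2 : a 0 * (κ ^ 2 * a 0) ≤ a 0 * a 1 := by
      calc a 0 * (κ ^ 2 * a 0) = κ ^ 2 * a 0 ^ 2 := by ring
        _ ≤ _ := h1.trans hb1
    exact le_of_mul_le_mul_left h2 hpos0
  have hstep : ∀ s, 0 < a s ∧ κ ^ 2 * a s ≤ a (s + 1) := by
    intro s
    induction s with
    | zero => exact ⟨hpos0, hrat⟩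
    | succ s ih =>
      obtain ⟨i1, i2⟩ := ih
      have i3 : 0 < a (s + 1) := lt_of_lt_of_le (by positivity) i2
      refine ⟨i3, ?_⟩
      have h1 : a s * (κ ^ 2 * a (s + 1)) ≤ a s * a (s + 2) := by
        calc a s * (κ ^ 2 * a (s + 1)) = (κ ^ 2 * a s) * a (s + 1) := by ring
          _ ≤ a (s + 1) * a (s + 1) := mul_le_mul_of_nonneg_right i2 i3.le
          _ = a (s + 1) ^ 2 := by ring
          _ ≤ _ := hlc s
      exact le_of_mul_le_mul_left h1 i1
  have hat : ∀ s, κ ^ (2 * (s + 1)) * Wt ≤ a (s + 1) := by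
    intro s
    induction s with
    | zero =>
      have h2 : a 0 * a 1 ≤ Wt * a 1 := mul_le_mul_of_nonneg_right haW (ha0 1)
      have h3 : Wt * (κ ^ (2 * (0 + 1)) * Wt) ≤ Wt * a (0 + 1) := by
        calc Wt * (κ ^ (2 * (0 + 1)) * Wt) = κ ^ 2 * Wt ^ 2 := by ring
          _ ≤ Wt * a 1 := hb1.trans h2
      exact le_of_mul_le_mul_left h3 hWp
    | succ s ih =>
      calc κ ^ (2 * (s + 1 + 1)) * Wt = κ ^ 2 * (κ ^ (2 * (s + 1)) * Wt) := by ring
        _ ≤ κ ^ 2 * a (s + 1) := mul_le_mul_of_nonneg_left ih (by positivity)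
        _ ≤ _ := (hstep (s + 1)).2
  -- expansion in the kernel
  set K : W → W → ℝ := fun v u => Kt w (2 * (t + 1)) v u with hK
  have hexp : a (t + 1) = ∑ u, ∑ v, Dg w u * Dg w v * (∑ j, U j u * U j v) * K v u := by
    have h1 : ∀ j, ip (Dg w) ((Pw w)^[t + 1] (U j)) ((Pw w)^[t + 1] (U j)) =
        ip (Dg w) (U j) ((Pw w)^[2 * (t + 1)] (U j)) := by
      intro j
      rw [iter_adj hw, ← Function.iterate_add_apply, two_mul]
    show ∑ j, ip (Dg w) ((Pw w)^[t + 1] (U j)) ((Pw w)^[t + 1] (U j)) = _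
    rw [sum_congr rfl fun j _ => h1 j]
    simp only [iter_Kt hw]
    unfold ip
    rw [sum_comm]
    refine sum_congr rfl fun u _ => ?_
    simp only [mul_sum, sum_mul]
    rw [sum_comm]
    refine sum_congr rfl fun v _ => sum_congr rfl fun j _ => by ring
  have hcs := Finset.sum_sq_le_sum_mul_sum_of_sq_le_mul ((univ : Finset W) ×ˢ (univ : Finset W))
    (r := fun p => Dg w p.1 * Dg w p.2 * (∑ j, U j p.1 * U j p.2) * K p.2 p.1)
    (f := fun p => Dg w p.1 * Dg w p.2 * (∑ j, U j p.1 * U j p.2) ^ 2)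
    (g := fun p => Dg w p.1 * Dg w p.2 * K p.2 p.1 ^ 2)
    (fun p _ => mul_nonneg (mul_nonneg (hw.pos _).le (hw.pos _).le) (sq_nonneg _))
    (fun p _ => mul_nonneg (mul_nonneg (hw.pos _).le (hw.pos _).le) (sq_nonneg _))
    (fun p _ => le_of_eq (by ring))
  rw [sum_product, sum_product, sum_product] at hcs
  rw [← hexp] at hcs
  have hKt := Kt_total hw α hα hα1 hT hne (2 * (t + 1))
  have hKe : ∑ u, ∑ v, Dg w u * Dg w v * K v u ^ 2 =
      ∑ v, Dg w v * ip (Dg w) (Kt w (2 * (t + 1)) v) (Kt w (2 * (t + 1)) v) := by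
    rw [sum_comm]
    refine sum_congr rfl fun v _ => ?_
    unfold ip
    rw [mul_sum]
    refine sum_congr rfl fun u _ => ?_
    simp only [hK]; ring
  simp only [] at hcs
  rw [hKe] at hcs
  have h9 : κ ^ (4 * (t + 1)) * Wt ^ 2 ≤ a (t + 1) ^ 2 := by
    calc κ ^ (4 * (t + 1)) * Wt ^ 2 = (κ ^ (2 * (t + 1)) * Wt) ^ 2 := by ring
      _ ≤ _ := pow_le_pow_left₀ (by positivity) (hat t) 2
  have h10 : 0 ≤ ∑ u, ∑ v, Dg w u * Dg w v * (∑ j, U j u * U j v) ^ 2 :=
    sum_nonneg fun u _ => sum_nonneg fun v _ =>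
      mul_nonneg (mul_nonneg (hw.pos _).le (hw.pos _).le) (sq_nonneg _)
  have h11 := mul_le_mul_of_nonneg_left hKt h10
  calc κ ^ (4 * (t + 1)) * Wt ^ 2 ≤ _ := h9.trans (hcs.trans h11)
    _ = _ := by ring

end Pool.Agent.helper747_ug
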