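import Pool.Agent.helper747_ug.GC

/-!
# The partition
-/

set_option autoImplicit false

namespace Pool.Agent.helper747_ug

open Finset Pool.Agent.H647R3.UG

variable {V : Type} [Fintype V]

/-- degree inside a set -/
def dS (w : V → V → ℝ) (S : Finset V) (u : V) : ℝ := ∑ v ∈ S, w u v

theorem wi_eq (w : V → V → ℝ) (S : Finset V) : wi w S = ∑ u ∈ S, dS w S u := rfl

theorem wi_nonneg {w : V → V → ℝ} (h0 : ∀ u v, 0 ≤ w u v) (S : Finset V) : 0 ≤ wi w S :=
  sum_nonneg fun u _ => sum_nonneg fun v _ => h0 u v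

theorem wi_sdiff [DecidableEq V] {w : V → V → ℝ} (hs : ∀ u v, w u v = w v u) {S T : Finset V}
    (hTS : T ⊆ S) : wi w (S \ T) = wi w S - 2 * ∑ u ∈ T, dS w S u + wi w T := by
  have h1 : ∀ F : V → ℝ, ∑ u ∈ S, F u = ∑ u ∈ S \ T, F u + ∑ u ∈ T, F u := fun F =>
    (sum_sdiff hTS).symm
  have e1 : wi w S = ∑ u ∈ S \ T, dS w S u + ∑ u ∈ T, dS w S u := by
    rw [wi_eq, h1]
  have e2 : ∑ u ∈ S \ T, dS w S u = wi w (S \ T) + ∑ u ∈ S \ T, ∑ v ∈ T, w u v := by
    unfold dS wi
    rw [← sum_add_distrib]
    exact sum_congr rfl fun u _ => h1 _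
  have e3 : ∑ u ∈ T, dS w S u = ∑ u ∈ T, ∑ v ∈ S \ T, w u v + wi w T := by
    unfold dS wi
    rw [← sum_add_distrib]
    exact sum_congr rfl fun u _ => h1 _
  have e4 : ∑ u ∈ S \ T, ∑ v ∈ T, w u v = ∑ u ∈ T, ∑ v ∈ S \ T, w u v := by
    rw [sum_comm]
    exact sum_congr rfl fun u _ => sum_congr rfl fun v _ => hs _ _
  linarith

/-- the partition lemma -/
theorem partition [DecidableEq V] (w : V → V → ℝ) (h0 : ∀ u v, 0 ≤ w u v)
    (hs : ∀ u v, w u v = w v u) (α : ℝ) (hα : 0 < α) :
    ∃ c : V → Fin (Fintype.card V + 1),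
      (∀ i, 0 < wi w (univ.filter fun v => c v = i) → ∀ T ⊆ univ.filter fun v => c v = i,
        wi w T ≤ 2 * (2 * (∑ u ∈ T, dS w (univ.filter fun v => c v = i) u) /
          wi w (univ.filter fun v => c v = i)) ^ α *
            ∑ u ∈ T, dS w (univ.filter fun v => c v = i) u) ∧
      wi w univ ≤ ((Fintype.card V : ℝ) + 1) ^ α * ∑ i, wi w (univ.filter fun v => c v = i) := by
  set p : ℝ := 1 + α with hp
  have hp0 : 0 < p := by positivity
  let F : (V → Fin (Fintype.card V + 1)) → Fin (Fintype.card V + 1) → Finset V :=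
    fun c i => univ.filter fun v => c v = i
  let Ψ : (V → Fin (Fintype.card V + 1)) → ℝ := fun c => ∑ i, (wi w (F c i)) ^ (1 / p)
  obtain ⟨c, hc⟩ := Finite.exists_max Ψ
  refine ⟨c, fun i hi T hT => ?_, ?_⟩
  · -- an unused colour
    have hns : ¬ Function.Surjective c := by
      intro h
      have := Fintype.card_le_of_surjective c h
      simp at this
    rw [Function.Surjective] at hns
    push Not at hns
    obtain ⟨i0, hi0⟩ := hns
    set S := univ.filter fun v => c v = i with hS
    have hSne : S.Nonempty := by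
      by_contra hne
      rw [not_nonempty_iff_eq_empty] at hne
      rw [hne] at hi
      simp [wi] at hi
    have hii : i0 ≠ i := by
      obtain ⟨v, hv⟩ := hSne
      simp only [hS, mem_filter, mem_univ, true_and] at hv
      intro h
      exact hi0 v (hv.trans h.symm)
    let c' : V → Fin (Fintype.card V + 1) := fun v => if v ∈ T then i0 else c v
    have hF0 : F c i0 = ∅ := by
      ext v; simp [F, hi0 v]
    have hF0' : F c' i0 = T := by
      ext v
      simp only [F, c', mem_filter, mem_univ, true_and]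
      by_cases hv : v ∈ T
      · simp [hv]
      · simp [hv, hi0 v]
    have hFi' : F c' i = S \ T := by
      ext v
      simp only [F, c', mem_filter, mem_univ, true_and, mem_sdiff, hS]
      by_cases hv : v ∈ T
      · simp [hv, hii]
      · simp [hv]
    have hFj : ∀ j, j ≠ i → j ≠ i0 → F c' j = F c j := by
      intro j hj hj0
      ext v
      simp only [F, c', mem_filter, mem_univ, true_and]
      by_cases hv : v ∈ T
      · have h1 : c v = i := by
          have := hT hv
          simpa [hS] using this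
        simp only [hv, if_true, h1]
        exact ⟨fun h => absurd h.symm hj0, fun h => absurd h.symm hj⟩
      · simp [hv]
    have hsplit : ∀ d : V → Fin (Fintype.card V + 1), Ψ d = (wi w (F d i)) ^ (1 / p) +
        ((wi w (F d i0)) ^ (1 / p) +
          ∑ j ∈ (univ.erase i).erase i0, (wi w (F d j)) ^ (1 / p)) := by
      intro d
      have h1 : i0 ∈ (univ : Finset (Fin (Fintype.card V + 1))).erase i := by simp [hii]
      rw [add_sum_erase _ (fun j => (wi w (F d j)) ^ (1 / p)) h1,
        add_sum_erase _ (fun j => (wi w (F d j)) ^ (1 / p)) (mem_univ i)]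
    have hle := hc c'
    rw [hsplit c, hsplit c'] at hle
    have hrest : ∑ j ∈ (univ.erase i).erase i0, (wi w (F c' j)) ^ (1 / p) =
        ∑ j ∈ (univ.erase i).erase i0, (wi w (F c j)) ^ (1 / p) := by
      refine sum_congr rfl fun j hj => ?_
      simp only [mem_erase, mem_univ, and_true] at hj
      rw [hFj j hj.2 hj.1]
    rw [hrest, hF0, hF0', hFi'] at hle
    have hz : (wi w (∅ : Finset V)) ^ (1 / p) = 0 := by
      have : wi w (∅ : Finset V) = 0 := by simp [wi]
      rw [this, Real.zero_rpow (by positivity)]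
    rw [hz] at hle
    have hFS : F c i = S := rfl
    rw [hFS] at hle
    have key : wi w (S \ T) ^ (1 / p) + wi w T ^ (1 / p) ≤ wi w S ^ (1 / p) := by linarith
    -- normalise
    set WS := wi w S with hWS
    set D := ∑ u ∈ T, dS w S u with hD
    have hD0 : 0 ≤ D := sum_nonneg fun u _ => sum_nonneg fun v _ => h0 u v
    have hT0 := wi_nonneg h0 T
    have hST0 := wi_nonneg h0 (S \ T)
    have hdiff := wi_sdiff hs (T := T) (S := S) hT
    rw [← hWS, ← hD] at hdiff
    have hy1 : wi w (S \ T) ≤ WS := by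
      rw [hWS, wi_eq, wi_eq]
      refine (sum_le_sum_of_subset_of_nonneg (f := dS w (S \ T)) sdiff_subset
        fun u _ _ => sum_nonneg fun v _ => h0 u v).trans ?_
      exact sum_le_sum fun u _ => sum_le_sum_of_subset_of_nonneg sdiff_subset
        fun v _ _ => h0 u v
    have hyy : wi w (S \ T) / WS ≤ (wi w (S \ T) / WS) ^ (1 / p) := by
      have h1 : (0 : ℝ) ≤ wi w (S \ T) / WS := div_nonneg hST0 hi.le
      have h2 : wi w (S \ T) / WS ≤ 1 := (div_le_one hi).2 hy1
      have h3 : 1 / p ≤ 1 := by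
        rw [div_le_one hp0]; linarith
      calc wi w (S \ T) / WS = (wi w (S \ T) / WS) ^ (1 : ℝ) := (Real.rpow_one _).symm
        _ ≤ _ := Real.rpow_le_rpow_of_exponent_ge_of_imp h1 h2 h3 (by
            intro h4 h5
            have : 0 < 1 / p := by positivity
            linarith)
    have key2 : (wi w (S \ T) / WS) ^ (1 / p) + (wi w T / WS) ^ (1 / p) ≤ 1 := by
      rw [Real.div_rpow hST0 hi.le, Real.div_rpow hT0 hi.le, ← add_div,
        div_le_one (Real.rpow_pos_of_pos hi _)]
      exact key
    have hx : (wi w T / WS) ^ (1 / p) ≤ 2 * D / WS := by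
      have h1 : wi w (S \ T) / WS = 1 - 2 * D / WS + wi w T / WS := by
        rw [hdiff]; field_simp
      have h2 : 0 ≤ wi w T / WS := div_nonneg hT0 hi.le
      linarith
    have hx2 : wi w T / WS ≤ (2 * D / WS) ^ p := by
      have h1 : (0 : ℝ) ≤ wi w T / WS := div_nonneg hT0 hi.le
      have h2 := Real.rpow_le_rpow (Real.rpow_nonneg h1 _) hx hp0.le
      rw [← Real.rpow_mul h1, one_div_mul_cancel hp0.ne', Real.rpow_one] at h2
      exact h2
    have hx3 : wi w T ≤ (2 * D / WS) ^ p * WS := by
      rwa [div_le_iff₀ hi] at hx2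
    refine hx3.trans (le_of_eq ?_)
    have hDn : 0 ≤ 2 * D / WS := by positivity
    rw [hp, Real.rpow_add_of_nonneg hDn zero_le_one hα.le, Real.rpow_one]
    field_simp
  · -- the retained weight
    have h1 := hc (fun _ => 0)
    have h2 : Ψ (fun _ => 0) = (wi w univ) ^ (1 / p) := by
      show ∑ i, (wi w (F (fun _ => 0) i)) ^ (1 / p) = _
      rw [Finset.sum_eq_single 0]
      · congr 2
        ext v; simp [F]
      · intro b _ hb
        have : F (fun _ => 0) b = ∅ := by
          ext v; simp [F, Ne.symm hb]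
        rw [this]
        have h3 : wi w (∅ : Finset V) = 0 := by simp [wi]
        rw [h3, Real.zero_rpow (by positivity)]
      · simp
    rw [h2] at h1
    have hW0 := wi_nonneg h0 (univ : Finset V)
    have h3 := Real.rpow_le_rpow (Real.rpow_nonneg hW0 _) h1 hp0.le
    rw [← Real.rpow_mul hW0, one_div_mul_cancel hp0.ne', Real.rpow_one] at h3
    have h4 := Real.rpow_sum_le_const_mul_sum_rpow_of_nonneg
      (s := (univ : Finset (Fin (Fintype.card V + 1)))) (f := fun i => (wi w (F c i)) ^ (1 / p))
      (p := p) (by linarith) (fun i _ => Real.rpow_nonneg (wi_nonneg h0 _) _)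
    refine h3.trans (h4.trans (le_of_eq ?_))
    rw [card_univ, Fintype.card_fin]
    have h5 : p - 1 = α := by rw [hp]; ring
    rw [h5]
    push_cast
    congr 1
    refine sum_congr rfl fun i _ => ?_
    have hwn := wi_nonneg h0 (F c i)
    show ((wi w (F c i)) ^ (1 / p)) ^ p = wi w (F c i)
    rw [← Real.rpow_mul hwn, one_div_mul_cancel hp0.ne', Real.rpow_one]

end Pool.Agent.helper747_ug
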