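import Pool.Agent.helper747_ug.Part

/-!
# Global correlation inside a part
-/

set_option autoImplicit false

namespace Pool.Agent.helper747_ug

open Finset Pool.Agent.H647R3.UG

variable {V : Type} [Fintype V]

theorem dS_nonneg {w : V → V → ℝ} (h0 : ∀ u v, 0 ≤ w u v) (S : Finset V) (u : V) :
    0 ≤ dS w S u := sum_nonneg fun v _ => h0 u v

theorem w_zero {w : V → V → ℝ} (h0 : ∀ u v, 0 ≤ w u v) (hs : ∀ u v, w u v = w v u) (S : Finset V)
    {v : V} (hv : dS w S v = 0) {u : V} (hu : u ∈ S) : w u v = 0 := by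
  rw [hs]
  exact (sum_eq_zero_iff_of_nonneg (fun x _ => h0 v x)).1 hv u hu

open Classical in
theorem sum_part {w : V → V → ℝ} (h0 : ∀ u v, 0 ≤ w u v) (S : Finset V) (F : V → ℝ)
    (hF : ∀ v ∈ S, dS w S v = 0 → F v = 0) :
    ∑ v ∈ S, F v = ∑ v : {v // v ∈ S ∧ 0 < dS w S v}, F v.1 := by
  have h1 : ∑ v ∈ S.filter fun v => 0 < dS w S v, F v =
      ∑ v : {v // v ∈ S ∧ 0 < dS w S v}, F v.1 :=
    Finset.sum_subtype _ (fun x => by simp) F
  rw [← h1]
  refine (sum_filter_of_ne fun v hv hne => ?_).symm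
  refine lt_of_le_of_ne (dS_nonneg h0 S v) fun h => hne (hF v hv h.symm)

open Classical in
theorem gcorrS {J : Type} [Fintype J] (w : V → V → ℝ) (h0 : ∀ u v, 0 ≤ w u v)
    (hs : ∀ u v, w u v = w v u) (S : Finset V) (hpos : 0 < wi w S) (α κ : ℝ) (hα : 0 < α)
    (hα1 : α ≤ 1)
    (hT : ∀ T ⊆ S, wi w T ≤ 2 * (2 * (∑ u ∈ T, dS w S u) / wi w S) ^ α * ∑ u ∈ T, dS w S u)
    (U : J → V → ℝ) (hU : ∀ u, ∑ j, U j u * U j u ≤ 1) (hκ : 0 < κ)
    (hloc : κ * wi w S ≤ ∑ u ∈ S, ∑ v ∈ S, w u v * ∑ j, U j u * U j v) (t : ℕ) :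
    κ ^ (4 * (t + 1)) * wi w S ^ 2 ≤
      (18 ^ (1 / (α / (2 * (1 + α)))) *
        (4 * (Fintype.card V : ℝ) ^ ((1 - α / (2 * (1 + α))) ^ (2 * (t + 1))))) *
      ∑ u ∈ S, ∑ v ∈ S, dS w S u * dS w S v * (∑ j, U j u * U j v) ^ 2 := by
  let W := {v // v ∈ S ∧ 0 < dS w S v}
  let w' : W → W → ℝ := fun u v => w u.1 v.1
  have hD : ∀ u : W, Dg w' u = dS w S u.1 := by
    intro u
    show ∑ v : W, w u.1 v.1 = ∑ v ∈ S, w u.1 v
    rw [sum_part h0 S (fun v => w u.1 v) fun v _ hv0 => w_zero h0 hs S hv0 u.2.1]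
  have hw' : Nt w' := ⟨fun u v => h0 _ _, fun u v => hs _ _, fun u => by rw [hD]; exact u.2.2⟩
  have hWS : vol (Dg w') univ = wi w S := by
    unfold vol
    simp only [hD]
    rw [wi_eq]
    exact (sum_part h0 S (fun v => dS w S v) fun v _ h => h).symm
  have hne : Nonempty W := by
    by_contra h
    rw [not_nonempty_iff] at h
    have : vol (Dg w') univ = 0 := by
      unfold vol
      exact Finset.sum_of_isEmpty _
    rw [hWS] at this
    linarith
  have hT' : ∀ T : Finset W, wi w' T ≤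
      2 * (2 * vol (Dg w') T / vol (Dg w') univ) ^ α * vol (Dg w') T := by
    intro T
    have h1 := hT (T.map (Function.Embedding.subtype _)) (fun x hx => by
      rw [mem_map] at hx
      obtain ⟨y, -, rfl⟩ := hx
      exact y.2.1)
    rw [hWS]
    have e1 : wi w (T.map (Function.Embedding.subtype _)) = wi w' T := by
      unfold wi
      rw [sum_map]
      refine sum_congr rfl fun u _ => ?_
      rw [sum_map]
      rfl
    have e2 : ∑ u ∈ T.map (Function.Embedding.subtype _), dS w S u = vol (Dg w') T := by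
      unfold vol
      rw [sum_map]
      refine sum_congr rfl fun u _ => ?_
      rw [hD]; rfl
    rw [e1, e2] at h1
    exact h1
  have e3 : ∑ u ∈ S, ∑ v ∈ S, w u v * ∑ j, U j u * U j v =
      ∑ u : W, ∑ v : W, w' u v * ∑ j, U j u.1 * U j v.1 := by
    rw [sum_part h0 S _ (fun u hu hu0 => ?_)]
    · refine sum_congr rfl fun u _ => ?_
      rw [sum_part h0 S _ (fun v hv hv0 => ?_)]
      rw [w_zero h0 hs S hv0 u.2.1, zero_mul]
    · refine sum_eq_zero fun v hv => ?_
      rw [hs, w_zero h0 hs S hu0 hv, zero_mul]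
  have e4 : ∑ u ∈ S, ∑ v ∈ S, dS w S u * dS w S v * (∑ j, U j u * U j v) ^ 2 =
      ∑ u : W, ∑ v : W, Dg w' u * Dg w' v * (∑ j, U j u.1 * U j v.1) ^ 2 := by
    rw [sum_part h0 S _ (fun u hu hu0 => ?_)]
    · refine sum_congr rfl fun u _ => ?_
      rw [sum_part h0 S _ (fun v hv hv0 => ?_)]
      · refine sum_congr rfl fun v _ => ?_
        rw [hD, hD]
      · rw [hv0]; ring
    · refine sum_eq_zero fun v hv => ?_
      rw [hu0]; ring
  have key := gcorr hw' hne α κ hα hα1 hT' (fun j u => U j u.1) (fun u => hU u.1) hκ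
    (by rw [hWS, ← e3]; exact hloc) t
  rw [hWS] at key
  rw [e4]
  refine key.trans ?_
  refine mul_le_mul_of_nonneg_right ?_ (sum_nonneg fun u _ => sum_nonneg fun v _ =>
    mul_nonneg (mul_nonneg (hw'.pos _).le (hw'.pos _).le) (sq_nonneg _))
  refine mul_le_mul_of_nonneg_left ?_ (by positivity)
  refine mul_le_mul_of_nonneg_left ?_ (by norm_num)
  refine Real.rpow_le_rpow (by positivity) ?_ ?_
  · exact_mod_cast Fintype.card_subtype_le _
  · refine pow_nonneg ?_ _
    rw [sub_nonneg, div_le_one (by positivity)]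
    linarith

end Pool.Agent.helper747_ug
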