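import Pool.Agent.helper747_ug.Cond

/-!
# Independent rounding
-/

set_option autoImplicit false

namespace Pool.Agent.helper747_ug

open Finset Pool.Agent.H647R3.UG Pool.Agent.TH522.UG

variable {V A E : Type} [Fintype V] [DecidableEq V] [Fintype A] [DecidableEq A] [Fintype E]

/-- product weight -/
def pw (p : V → A → ℝ) (x : V → A) : ℝ := ∏ v, p v (x v)

theorem pw_pair (p : V → A → ℝ) (h1 : ∀ v, ∑ a, p v a = 1) (u v : V) (a b : A) :
    ∑ x, pw p x * (ind u a x * ind v b x) =
      if u = v then (if a = b then p u a else 0) else p u a * p v b := by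
  have e : ∀ x : V → A, pw p x * (ind u a x * ind v b x) =
      ∏ w, (p w (x w) * ((if w = u then (if x w = a then 1 else 0) else 1) *
        (if w = v then (if x w = b then 1 else 0) else 1))) := by
    intro x
    rw [prod_mul_distrib, prod_mul_distrib]
    unfold pw ind
    congr 1
    congr 1
    · rw [Finset.prod_ite_eq' univ u (fun w => if x w = a then (1 : ℝ) else 0)]
      simp
    · rw [Finset.prod_ite_eq' univ v (fun w => if x w = b then (1 : ℝ) else 0)]
      simp
  simp only [e]
  have e2 := Finset.prod_univ_sum (fun _ : V => (univ : Finset A))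
    (fun w j => p w j * ((if w = u then (if j = a then (1 : ℝ) else 0) else 1) *
        (if w = v then (if j = b then 1 else 0) else 1)))
  rw [Fintype.piFinset_univ] at e2
  rw [← e2]
  by_cases huv : u = v
  · subst huv
    rw [if_pos rfl, Finset.prod_eq_single u]
    · simp only [if_true]
      by_cases hab : a = b
      · subst hab
        rw [if_pos rfl, Finset.sum_eq_single a]
        · simp
        · intro j _ hj; simp [hj]
        · simp
      · rw [if_neg hab]
        refine sum_eq_zero fun j _ => ?_
        by_cases hj : j = a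
        · have : ¬ j = b := fun h => hab (hj.symm.trans h)
          simp [this]
        · simp [hj]
    · intro w _ hw
      simp [hw, h1]
    · simp
  · rw [if_neg huv, Finset.prod_eq_mul u v huv]
    · have huv' : ¬ v = u := fun h => huv h.symm
      congr 1
      · rw [Finset.sum_eq_single a]
        · simp [huv]
        · intro j _ hj; simp [hj]
        · simp
      · rw [Finset.sum_eq_single b]
        · simp [huv']
        · intro j _ hj; simp [hj]
        · simp
    · intro w _ hw
      simp [hw.1, hw.2, h1]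
    · simp
    · simp

theorem pw_total (p : V → A → ℝ) (h1 : ∀ v, ∑ a, p v a = 1) : ∑ x, pw p x = 1 := by
  have e2 := Finset.prod_univ_sum (fun _ : V => (univ : Finset A)) (fun w j => p w j)
  rw [Fintype.piFinset_univ] at e2
  unfold pw
  rw [← e2]
  simp [h1]

theorem pw_exists (p : V → A → ℝ) (h0 : ∀ v a, 0 ≤ p v a) (h1 : ∀ v, ∑ a, p v a = 1)
    (g : (V → A) → ℝ) : ∃ x, ∑ y, pw p y * g y ≤ g x := by
  by_contra hcon
  push Not at hcon
  have hT := pw_total p h1
  have hnn : ∀ x, 0 ≤ pw p x := fun x => prod_nonneg fun v _ => h0 v (x v)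
  set M := ∑ y, pw p y * g y with hM
  have hlt : ∑ y, pw p y * g y < ∑ y, pw p y * M := by
    refine sum_lt_sum (fun y _ => mul_le_mul_of_nonneg_left (hcon y).le (hnn y)) ?_
    have : ∃ y ∈ (univ : Finset (V → A)), 0 < pw p y := by
      by_contra hno
      push Not at hno
      have := sum_nonpos hno
      linarith
    obtain ⟨y, hy, hy0⟩ := this
    exact ⟨y, hy, mul_lt_mul_of_pos_left (hcon y) hy0⟩
  rw [← sum_mul, hT, one_mul, ← hM] at hlt
  exact lt_irrefl _ hlt

theorem rdv_eq {k : ℕ} {L : ((V → A) → ℝ) →ₗ[ℝ] ℝ} (hL : Mixed k L) (R : Finset (A × A))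
    (u v : V) : ∑ x, pw (pr L) x * rel R u v x = rdv L R u v := by
  have h1 : ∀ v, ∑ a, pr L v a = 1 := fun v => (Mx.law hL v v).one
  simp only [rel_expand, mul_sum]
  rw [sum_comm]
  simp only [pw_pair (pr L) h1]
  unfold rdv
  by_cases huv : u = v
  · subst huv
    simp only [if_true]
    rw [rel_eq]
    refine sum_congr rfl fun p _ => ?_
    rw [Mx.diag L u]
    rfl
  · simp only [if_neg huv]

/-- rounding of a part -/
theorem round_part {k : ℕ} {L : ((V → A) → ℝ) →ₗ[ℝ] ℝ} (hL : Mixed k L) (s t : E → V)
    (R : E → Finset (A × A)) (S : Finset V) :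
    ∃ x : V → A, Rd s t R S L ≤
      (((ins s t S).filter fun e => (x (s e), x (t e)) ∈ R e).card : ℝ) := by
  obtain ⟨x, hx⟩ := pw_exists (pr L) (Mx.pr_nonneg hL) (fun v => (Mx.law hL v v).one)
    (fun x => ∑ e ∈ ins s t S, rel (R e) (s e) (t e) x)
  refine ⟨x, ?_⟩
  have e1 : ∑ y, pw (pr L) y * ∑ e ∈ ins s t S, rel (R e) (s e) (t e) y = Rd s t R S L := by
    unfold Rd
    simp only [mul_sum]
    rw [sum_comm]
    exact sum_congr rfl fun e _ => rdv_eq hL _ _ _
  rw [e1] at hx
  refine hx.trans (le_of_eq ?_)
  unfold rel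
  rw [Finset.sum_boole]

end Pool.Agent.helper747_ug
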