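import Pool.Agent.H573R3.SL.T_SQ

/-!
# Random walks on graphs whose small sets have small inner degree

`w` is a symmetric nonnegative weight function, `D w u` the degree. If every set `T` of relative
volume `δ` satisfies `w(T, T) ≤ 2 (2 δ) ^ α vol T`, then the square norm of a probability density
decreases under one step of the walk by a factor `O(δ ^ γ)`, where `δ` is the analytic relative
volume of the density.
-/

set_option autoImplicit false

namespace Pool.Agent.helper747_ug

open Finset Pool.Agent.H647R3.UG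

variable {W : Type} [Fintype W]

/-- degree -/
def Dg (w : W → W → ℝ) (u : W) : ℝ := ∑ v, w u v

/-- bilinear form of the weights -/
def Bf (w : W → W → ℝ) (f g : W → ℝ) : ℝ := ∑ u, ∑ v, w u v * (f u * g v)

/-- the walk -/
noncomputable def Pw (w : W → W → ℝ) (f : W → ℝ) : W → ℝ := fun u => (∑ v, w u v * f v) / Dg w u

/-- weight inside a set -/
def wi (w : W → W → ℝ) (T : Finset W) : ℝ := ∑ u ∈ T, ∑ v ∈ T, w u v

/-- symmetric nonnegative weights with positive degrees -/
structure Nt (w : W → W → ℝ) : Prop where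
  nonneg : ∀ u v, 0 ≤ w u v
  symm : ∀ u v, w u v = w v u
  pos : ∀ u, 0 < Dg w u

theorem Bf_eq_ip {w : W → W → ℝ} (hw : Nt w) (f g : W → ℝ) :
    Bf w f g = ip (Dg w) f (Pw w g) := by
  unfold Bf ip Pw
  refine sum_congr rfl fun u _ => ?_
  have h := (hw.pos u).ne'
  field_simp
  rw [mul_sum]
  refine sum_congr rfl fun v _ => by ring

theorem Bf_symm {w : W → W → ℝ} (hw : Nt w) (f g : W → ℝ) : Bf w f g = Bf w g f := by
  unfold Bf
  rw [sum_comm]
  refine sum_congr rfl fun u _ => sum_congr rfl fun v _ => ?_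
  rw [hw.symm v u]
  ring

theorem ip_comm' (m f g : W → ℝ) : ip m f g = ip m g f := by
  unfold ip
  exact sum_congr rfl fun u _ => by ring

theorem Pw_adj {w : W → W → ℝ} (hw : Nt w) (f g : W → ℝ) :
    ip (Dg w) (Pw w f) g = ip (Dg w) f (Pw w g) := by
  rw [← Bf_eq_ip hw, Bf_symm hw, Bf_eq_ip hw, ip_comm']

theorem ip_self_nonneg {w : W → W → ℝ} (hw : Nt w) (f : W → ℝ) : 0 ≤ ip (Dg w) f f := by
  unfold ip
  refine sum_nonneg fun u _ => ?_
  have := (hw.pos u).le
  have h2 := mul_nonneg this (mul_self_nonneg (f u))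
  linarith

/-- contraction -/
theorem Bf_sq_le {w : W → W → ℝ} (hw : Nt w) (f g : W → ℝ) :
    Bf w f g ^ 2 ≤ ip (Dg w) f f * ip (Dg w) g g := by
  have h := Finset.sum_sq_le_sum_mul_sum_of_sq_le_mul ((univ : Finset W) ×ˢ (univ : Finset W))
    (r := fun p => w p.1 p.2 * (f p.1 * g p.2))
    (f := fun p => w p.1 p.2 * f p.1 ^ 2) (g := fun p => w p.1 p.2 * g p.2 ^ 2)
    (fun p _ => mul_nonneg (hw.nonneg _ _) (sq_nonneg _))
    (fun p _ => mul_nonneg (hw.nonneg _ _) (sq_nonneg _))
    (fun p _ => le_of_eq (by ring))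
  rw [sum_product, sum_product, sum_product] at h
  have e1 : ∑ u, ∑ v, w u v * f u ^ 2 = ip (Dg w) f f := by
    unfold ip Dg
    refine sum_congr rfl fun u _ => ?_
    rw [← sum_mul]
    ring
  have e2 : ∑ u, ∑ v, w u v * g v ^ 2 = ip (Dg w) g g := by
    rw [sum_comm]
    unfold ip Dg
    refine sum_congr rfl fun u _ => ?_
    rw [← sum_mul]
    have : ∑ x, w x u = ∑ x, w u x := sum_congr rfl fun x _ => hw.symm _ _
    rw [this]
    ring
  simp only [e1, e2] at h
  exact h

theorem Pw_contr {w : W → W → ℝ} (hw : Nt w) (f : W → ℝ) :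
    ip (Dg w) (Pw w f) (Pw w f) ≤ ip (Dg w) f f := by
  have h1 := Bf_sq_le hw (Pw w f) f
  rw [Bf_eq_ip hw] at h1
  have h2 := ip_self_nonneg hw (Pw w f)
  have h3 := ip_self_nonneg hw f
  rcases h2.eq_or_lt with h | h
  · rw [← h]; exact h3
  · rw [sq] at h1
    exact le_of_mul_le_mul_left h1 h

theorem Pw_nonneg {w : W → W → ℝ} (hw : Nt w) {f : W → ℝ} (hf : ∀ u, 0 ≤ f u) (u : W) :
    0 ≤ Pw w f u :=
  div_nonneg (sum_nonneg fun v _ => mul_nonneg (hw.nonneg _ _) (hf v)) (hw.pos u).le

theorem Pw_mass {w : W → W → ℝ} (hw : Nt w) (f : W → ℝ) :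
    ∑ u, Dg w u * Pw w f u = ∑ u, Dg w u * f u := by
  have h1 : ∀ u, Dg w u * Pw w f u = ∑ v, w u v * f v := fun u => by
    unfold Pw
    rw [mul_div_cancel₀ _ (hw.pos u).ne']
  simp only [h1]
  rw [sum_comm]
  refine sum_congr rfl fun v _ => ?_
  rw [← sum_mul]
  unfold Dg
  congr 1
  exact sum_congr rfl fun x _ => hw.symm _ _

/-- layer cake: the inner weight of the level sets -/
theorem layer {w : W → W → ℝ} (hw : Nt w) (ν : ℝ) :
    ∀ (n : ℕ) (h : W → ℝ), (∀ u, 0 ≤ h u) → (univ.filter fun u => 0 < h u).card ≤ n →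
      (∀ T : Finset W, (∀ u ∈ T, 0 < h u) → wi w T ≤ ν * vol (Dg w) T) →
      ∑ u, ∑ v, w u v * min (h u) (h v) ≤ ν * ∑ u, Dg w u * h u := by
  classical
  intro n
  induction n with
  | zero =>
    intro h hh hc _
    have h0 : ∀ u, h u = 0 := by
      intro u
      have h1 : (univ.filter fun u => 0 < h u) = ∅ := by
        rw [← Finset.card_eq_zero]; omega
      by_contra hne
      have h2 : u ∈ (univ.filter fun u => 0 < h u) := by
        simp [lt_of_le_of_ne (hh u) (Ne.symm hne)]
      rw [h1] at h2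
      exact absurd h2 (Finset.notMem_empty _)
    simp [h0]
  | succ n ih =>
    intro h hh hc hT
    by_cases hne : (univ.filter fun u => 0 < h u).Nonempty
    · obtain ⟨u0, hu0, hmin⟩ := Finset.exists_min_image _ h hne
      set S := univ.filter fun u => 0 < h u with hS
      have hpos : 0 < h u0 := by simpa [hS] using hu0
      set h' : W → ℝ := fun u => if u ∈ S then h u - h u0 else 0 with hh'
      have hh'0 : ∀ u, 0 ≤ h' u := by
        intro u
        simp only [hh']
        split_ifs with hu
        · linarith [hmin u hu]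
        · exact le_rfl
      have hsub : ∀ u, 0 < h' u → u ∈ S.erase u0 := by
        intro u hu
        simp only [hh'] at hu
        split_ifs at hu with hm
        · refine mem_erase.2 ⟨?_, hm⟩
          rintro rfl
          simp at hu
        · exact absurd hu (lt_irrefl _)
      have hcard : (univ.filter fun u => 0 < h' u).card ≤ n := by
        have h1 : (univ.filter fun u => 0 < h' u) ⊆ S.erase u0 := fun u hu => by
          simp only [mem_filter, mem_univ, true_and] at hu
          exact hsub u hu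
        have h2 := Finset.card_le_card h1
        rw [Finset.card_erase_of_mem hu0] at h2
        omega
      have hih := ih h' hh'0 hcard fun T hTT => hT T fun u hu => by
        have := hsub u (hTT u hu)
        simpa [hS] using (mem_erase.1 this).2
      have hSz : ∀ u, u ∉ S → h u = 0 := by
        intro u hu
        by_contra hne'
        exact hu (by simp [hS, lt_of_le_of_ne (hh u) (Ne.symm hne')])
      have e1 : ∀ u v, min (h u) (h v) = min (h' u) (h' v) +
          (if u ∈ S ∧ v ∈ S then h u0 else 0) := by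
        intro u v
        simp only [hh']
        by_cases hu : u ∈ S
        · by_cases hv : v ∈ S
          · simp only [hu, hv, if_true, and_self]
            rw [min_sub_sub_right]
            ring
          · simp only [hu, hv, if_true, if_false, and_false, add_zero]
            rw [hSz v hv]
            rw [min_eq_right (hh u), min_eq_right (by linarith [hmin u hu])]
        · simp only [hu, if_false, false_and, add_zero]
          rw [hSz u hu]
          by_cases hv : v ∈ S
          · simp only [hv, if_true]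
            rw [min_eq_left (hh v), min_eq_left (by linarith [hmin v hv])]
          · simp only [hv, if_false]
            rw [hSz v hv]
      have e2 : ∑ u, ∑ v, w u v * (if u ∈ S ∧ v ∈ S then h u0 else 0) = h u0 * wi w S := by
        unfold wi
        rw [mul_sum, ← Finset.sum_filter_add_sum_filter_not univ (fun u => u ∈ S)]
        have z : ∑ u ∈ univ.filter (fun u => ¬ u ∈ S), ∑ v, w u v *
            (if u ∈ S ∧ v ∈ S then h u0 else 0) = 0 := by
          refine sum_eq_zero fun u hu => sum_eq_zero fun v _ => ?_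
          simp only [mem_filter, mem_univ, true_and] at hu
          simp [hu]
        rw [z, add_zero]
        have hfil : univ.filter (fun u => u ∈ S) = S := by ext u; simp
        rw [hfil]
        refine sum_congr rfl fun u hu => ?_
        rw [mul_sum, ← Finset.sum_filter_add_sum_filter_not univ (fun v => v ∈ S)]
        have z2 : ∑ v ∈ univ.filter (fun v => ¬ v ∈ S), w u v *
            (if u ∈ S ∧ v ∈ S then h u0 else 0) = 0 := by
          refine sum_eq_zero fun v hv => ?_
          simp only [mem_filter, mem_univ, true_and] at hv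
          simp [hv]
        rw [z2, add_zero, hfil]
        refine sum_congr rfl fun v hv => ?_
        simp only [hu, hv, and_self, if_true]
        ring
      have e3 : ∑ u, Dg w u * h u = ∑ u, Dg w u * h' u + h u0 * vol (Dg w) S := by
        have : ∀ u, Dg w u * h u = Dg w u * h' u + Dg w u * (if u ∈ S then h u0 else 0) := by
          intro u
          simp only [hh']
          by_cases hu : u ∈ S
          · simp only [hu, if_true]; ring
          · simp only [hu, if_false, hSz u hu]; ring
        simp only [this, sum_add_distrib]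
        congr 1
        unfold vol
        rw [mul_sum, ← Finset.sum_filter_add_sum_filter_not univ (fun u => u ∈ S)]
        have z : ∑ u ∈ univ.filter (fun u => ¬ u ∈ S), Dg w u * (if u ∈ S then h u0 else 0) = 0 := by
          refine sum_eq_zero fun u hu => ?_
          simp only [mem_filter, mem_univ, true_and] at hu
          simp [hu]
        have hfil : univ.filter (fun u => u ∈ S) = S := by ext u; simp
        rw [z, add_zero, hfil]
        refine sum_congr rfl fun u hu => ?_
        simp only [hu, if_true]; ring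
      have h5 := hT S fun u hu => by simpa [hS] using hu
      calc ∑ u, ∑ v, w u v * min (h u) (h v)
          = ∑ u, ∑ v, w u v * min (h' u) (h' v) + h u0 * wi w S := by
            rw [← e2, ← sum_add_distrib]
            refine sum_congr rfl fun u _ => ?_
            rw [← sum_add_distrib]
            refine sum_congr rfl fun v _ => ?_
            rw [e1]; ring
        _ ≤ ν * ∑ u, Dg w u * h' u + h u0 * (ν * vol (Dg w) S) :=
            add_le_add hih (mul_le_mul_of_nonneg_left h5 hpos.le)
        _ = _ := by rw [e3]; ring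
    · rw [Finset.not_nonempty_iff_eq_empty] at hne
      exact ih h hh (by rw [hne]; simp) hT

/-- functions supported on sets with small inner weight -/
theorem supp_bound {w : W → W → ℝ} (hw : Nt w) (ν : ℝ) (hν : 0 ≤ ν) (f : W → ℝ) (hf : ∀ u, 0 ≤ f u)
    (hT : ∀ T : Finset W, (∀ u ∈ T, 0 < f u) → wi w T ≤ ν * vol (Dg w) T) :
    Bf w f f ≤ Real.sqrt (2 * ν) * ip (Dg w) f f := by
  classical
  have h1 := layer hw ν (univ.filter fun u => 0 < f u ^ 2).card (fun u => f u ^ 2)
    (fun u => sq_nonneg _) le_rfl (fun T hTT => hT T fun u hu => by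
      have := hTT u hu
      exact lt_of_le_of_ne (hf u) (fun h => by rw [← h] at this; simp at this))
  set X := ip (Dg w) f f with hX
  have hX0 : 0 ≤ X := ip_self_nonneg hw f
  have e0 : ∑ u, Dg w u * f u ^ 2 = X := by
    rw [hX]; unfold ip; exact sum_congr rfl fun u _ => by ring
  rw [e0] at h1
  have h2 := Finset.sum_sq_le_sum_mul_sum_of_sq_le_mul ((univ : Finset W) ×ˢ (univ : Finset W))
    (r := fun p => w p.1 p.2 * (f p.1 * f p.2))
    (f := fun p => w p.1 p.2 * min (f p.1 ^ 2) (f p.2 ^ 2))
    (g := fun p => w p.1 p.2 * max (f p.1 ^ 2) (f p.2 ^ 2))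
    (fun p _ => mul_nonneg (hw.nonneg _ _) (le_min (sq_nonneg _) (sq_nonneg _)))
    (fun p _ => mul_nonneg (hw.nonneg _ _) (le_max_of_le_left (sq_nonneg _)))
    (fun p _ => le_of_eq (by
      have := min_mul_max (f p.1 ^ 2) (f p.2 ^ 2)
      calc (w p.1 p.2 * (f p.1 * f p.2)) ^ 2 = w p.1 p.2 ^ 2 * (f p.1 ^ 2 * f p.2 ^ 2) := by ring
        _ = w p.1 p.2 ^ 2 * (min (f p.1 ^ 2) (f p.2 ^ 2) * max (f p.1 ^ 2) (f p.2 ^ 2)) := by
            rw [this]
        _ = _ := by ring))
  rw [sum_product, sum_product, sum_product] at h2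
  have h3 : ∑ u, ∑ v, w u v * max (f u ^ 2) (f v ^ 2) ≤ 2 * X := by
    have : ∑ u, ∑ v, w u v * max (f u ^ 2) (f v ^ 2) ≤
        ∑ u, ∑ v, (w u v * f u ^ 2 + w u v * f v ^ 2) := by
      refine sum_le_sum fun u _ => sum_le_sum fun v _ => ?_
      rw [← mul_add]
      refine mul_le_mul_of_nonneg_left ?_ (hw.nonneg _ _)
      exact max_le (by linarith [sq_nonneg (f v)]) (by linarith [sq_nonneg (f u)])
    refine this.trans (le_of_eq ?_)
    simp only [sum_add_distrib]
    have a1 : ∑ u, ∑ v, w u v * f u ^ 2 = X := by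
      rw [← e0]
      refine sum_congr rfl fun u _ => ?_
      rw [← sum_mul]; rfl
    have a2 : ∑ u, ∑ v, w u v * f v ^ 2 = X := by
      rw [sum_comm, ← e0]
      refine sum_congr rfl fun u _ => ?_
      rw [← sum_mul]
      congr 1
      unfold Dg
      exact sum_congr rfl fun x _ => hw.symm _ _
    rw [a1, a2]; ring
  have h4 : Bf w f f ^ 2 ≤ (ν * X) * (2 * X) := by
    refine h2.trans (mul_le_mul h1 h3 ?_ (mul_nonneg hν hX0))
    exact sum_nonneg fun u _ => sum_nonneg fun v _ =>
      mul_nonneg (hw.nonneg _ _) (le_max_of_le_left (sq_nonneg _))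
  have h5 : (ν * X) * (2 * X) = (Real.sqrt (2 * ν) * X) ^ 2 := by
    rw [mul_pow, Real.sq_sqrt (by positivity)]; ring
  rw [h5] at h4
  exact abs_le_of_sq_le_sq' h4 (by positivity) |>.2

theorem Bf_add {w : W → W → ℝ} (f1 f2 g : W → ℝ) :
    Bf w (fun u => f1 u + f2 u) g = Bf w f1 g + Bf w f2 g := by
  unfold Bf
  rw [← sum_add_distrib]
  refine sum_congr rfl fun u _ => ?_
  rw [← sum_add_distrib]
  exact sum_congr rfl fun v _ => by ring

/-- analytically sparse functions -/
theorem sparse_bound {w : W → W → ℝ} (hw : Nt w) (α : ℝ) (hα : 0 < α)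
    (hT : ∀ T : Finset W, wi w T ≤ 2 * (2 * vol (Dg w) T / vol (Dg w) univ) ^ α * vol (Dg w) T)
    (h : W → ℝ) (hh : ∀ u, 0 ≤ h u) (M1 X η : ℝ) (hM : ∑ u, Dg w u * h u = M1)
    (hX : ip (Dg w) h h = X) (hX0 : 0 < X) (hη : 0 < η) (hη1 : η ≤ 1) (hM0 : 0 < M1) :
    Bf w h h ≤ (2 * (2 * (M1 ^ 2 / (η * X)) / vol (Dg w) univ) ^ (α / 2) + 3 * Real.sqrt η) * X := by
  classical
  set θ := η * X / M1 with hθ
  have hθ0 : 0 < θ := by positivity
  set f1 : W → ℝ := fun u => max (h u - θ) 0 with hf1
  set f2 : W → ℝ := fun u => min (h u) θ with hf2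
  have hsum : ∀ u, h u = f1 u + f2 u := by
    intro u
    simp only [hf1, hf2]
    rcases le_total (h u) θ with h' | h'
    · rw [max_eq_right (by linarith), min_eq_left h']; ring
    · rw [max_eq_left (by linarith), min_eq_right h']; ring
  have hf1n : ∀ u, 0 ≤ f1 u := fun u => le_max_right _ _
  have hf2n : ∀ u, 0 ≤ f2 u := fun u => le_min (hh u) hθ0.le
  have hf1h : ∀ u, f1 u ≤ h u := fun u => max_le (by linarith) (hh u)
  have hwp : 0 < vol (Dg w) univ := by
    have hne : Nonempty W := by
      by_contra hne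
      rw [not_nonempty_iff] at hne
      rw [← hM, Finset.sum_of_isEmpty] at hM0
      exact lt_irrefl _ hM0
    exact sum_pos (fun u _ => hw.pos u) univ_nonempty
  -- norms
  have n2 : ip (Dg w) f2 f2 ≤ η * X := by
    have : ip (Dg w) f2 f2 ≤ θ * ∑ u, Dg w u * h u := by
      unfold ip
      rw [mul_sum]
      refine sum_le_sum fun u _ => ?_
      have a1 : f2 u * f2 u ≤ h u * θ :=
        mul_le_mul (min_le_left _ _) (min_le_right _ _) (hf2n u) (hh u)
      have a2 := mul_le_mul_of_nonneg_left a1 (hw.pos u).le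
      linarith
    rw [hM] at this
    refine this.trans (le_of_eq ?_)
    rw [hθ]; field_simp
  have n1 : ip (Dg w) f1 f1 ≤ X := by
    rw [← hX]
    unfold ip
    refine sum_le_sum fun u _ => ?_
    have a1 : f1 u * f1 u ≤ h u * h u := mul_le_mul (hf1h u) (hf1h u) (hf1n u) (hh u)
    have a2 := mul_le_mul_of_nonneg_left a1 (hw.pos u).le
    linarith
  have n10 := ip_self_nonneg hw f1
  have n20 := ip_self_nonneg hw f2
  -- B
  set s : ℝ := M1 ^ 2 / (η * X) with hs
  have hs0 : 0 < s := by positivity
  set ν : ℝ := 2 * (2 * s / vol (Dg w) univ) ^ α with hν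
  have hν0 : 0 ≤ ν := by positivity
  have b1 : Bf w f1 f1 ≤ Real.sqrt (2 * ν) * ip (Dg w) f1 f1 := by
    refine supp_bound hw ν hν0 f1 hf1n fun T hTT => ?_
    refine (hT T).trans ?_
    have hv0 : 0 ≤ vol (Dg w) T := sum_nonneg fun u _ => (hw.pos u).le
    refine mul_le_mul_of_nonneg_right ?_ hv0
    rw [hν]
    refine mul_le_mul_of_nonneg_left ?_ (by norm_num)
    refine Real.rpow_le_rpow (by positivity) ?_ hα.le
    refine div_le_div_of_nonneg_right ?_ hwp.le
    refine mul_le_mul_of_nonneg_left ?_ (by norm_num)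
    -- volume of T
    have a3 : θ * vol (Dg w) T ≤ M1 := by
      rw [← hM]
      unfold vol
      rw [mul_sum]
      refine (sum_le_sum fun u hu => ?_).trans
        (Finset.sum_le_univ_sum_of_nonneg fun u => mul_nonneg (hw.pos u).le (hh u))
      have a4 := hTT u hu
      simp only [hf1, lt_max_iff, lt_self_iff_false, or_false] at a4
      have a5 := mul_le_mul_of_nonneg_left (le_of_lt (sub_pos.1 a4)) (hw.pos u).le
      linarith
    rw [hs]
    have : vol (Dg w) T ≤ M1 / θ := by
      rw [le_div_iff₀ hθ0]; linarith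
    refine this.trans (le_of_eq ?_)
    rw [hθ]; field_simp
  have b2 : Bf w f1 f2 ≤ Real.sqrt η * X := by
    have c1 := Bf_sq_le hw f1 f2
    have c2 : ip (Dg w) f1 f1 * ip (Dg w) f2 f2 ≤ X * (η * X) := mul_le_mul n1 n2 n20 hX0.le
    have c3 : X * (η * X) = (Real.sqrt η * X) ^ 2 := by
      rw [mul_pow, Real.sq_sqrt hη.le]; ring
    exact abs_le_of_sq_le_sq' ((c1.trans c2).trans c3.le) (by positivity) |>.2
  have b3 : Bf w f2 f2 ≤ Real.sqrt η * X := by
    have c1 := Bf_sq_le hw f2 f2
    have c2 : ip (Dg w) f2 f2 * ip (Dg w) f2 f2 ≤ (η * X) * (η * X) :=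
      mul_le_mul n2 n2 n20 (by positivity)
    have c3 : Bf w f2 f2 ≤ η * X :=
      abs_le_of_sq_le_sq' (((c1.trans c2).trans (le_of_eq (by ring))) :
        Bf w f2 f2 ^ 2 ≤ (η * X) ^ 2) (by positivity) |>.2
    refine c3.trans (mul_le_mul_of_nonneg_right ?_ hX0.le)
    have c4 : η * η ≤ η := by nlinarith
    exact Real.le_sqrt_of_sq_le (by nlinarith)
  have hB : Bf w h h = Bf w f1 f1 + 2 * Bf w f1 f2 + Bf w f2 f2 := by
    have e : h = fun u => f1 u + f2 u := funext hsum
    rw [e, Bf_add, Bf_symm hw f1, Bf_symm hw f2, Bf_add, Bf_add, Bf_symm hw f2 f1]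
    ring
  have hsq : Real.sqrt (2 * ν) = 2 * (2 * s / vol (Dg w) univ) ^ (α / 2) := by
    rw [hν]
    have hb : 0 ≤ 2 * s / vol (Dg w) univ := by positivity
    have e1 : (2 : ℝ) * (2 * (2 * s / vol (Dg w) univ) ^ α) =
        (2 * (2 * s / vol (Dg w) univ) ^ (α / 2)) ^ 2 := by
      rw [mul_pow, ← Real.rpow_natCast ((2 * s / vol (Dg w) univ) ^ (α / 2)) 2,
        ← Real.rpow_mul hb]
      norm_num
      ring
    rw [e1, Real.sqrt_sq (by positivity)]
  rw [hB]
  have b4 : Bf w f1 f1 ≤ 2 * (2 * s / vol (Dg w) univ) ^ (α / 2) * X := by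
    rw [← hsq]
    exact b1.trans (mul_le_mul_of_nonneg_left n1 (Real.sqrt_nonneg _))
  nlinarith

end Pool.Agent.helper747_ug
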